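import Pool.Agent.V8H87.GG.Tower

/-!
# Towers of algebras with partial traces and pairing operators (Brauer towers)
-/

set_option autoImplicit false
set_option linter.unusedSectionVars false

open Equiv Equiv.Perm

namespace Pool.Agent.V8H15.BT

open Pool.Agent.V8H87.GG

variable {A : ℕ → Type*} [∀ n, Ring (A n)] [∀ n, Algebra ℚ (A n)] {E : Type*} [Ring E]
    [Algebra ℚ E]

/-- The operators `e n` on the two newest positions, given by a pairing followed by the copairing. -/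
structure Bra (T : TT A E) where
  e : ∀ n, A (n + 2)
  e_s : ∀ n, e n * T.s n = e n
  s_e : ∀ n, T.s n * e n = e n
  e_comm : ∀ n (a : A n), e n * T.ι (n + 1) (T.ι n a) = T.ι (n + 1) (T.ι n a) * e n
  pt_e : ∀ n, T.pt (n + 1) (e n) = 1
  conj : ∀ n, T.th (n + 3) (swap 0 2) * e (n + 1) = T.ι (n + 2) (e n) * T.th (n + 3) (swap 0 2)
  e_e : ∀ n, e (n + 1) * T.ι (n + 2) (e n) = e (n + 1) * T.th (n + 3) (swap 0 2)

namespace Bra

variable {T : TT A E} (B : Bra T)

section basic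

variable (T)

/-- the exchange of the positions `0` and `2` -/
def S (n : ℕ) : A (n + 3) := T.th (n + 3) (swap 0 2)

lemma S_sq (n : ℕ) : S T n * S T n = 1 := by
  rw [S, ← map_mul, swap_mul_self, map_one]

lemma swap02 (n : ℕ) : (swap 0 2 : Perm (Fin (n + 3))) = swap 0 1 * ex (swap 0 1) * swap 0 1 := by
  have h := TT.swap_conj (n := n + 1) (1 : Fin (n + 2))
  have h2 : (1 : Fin (n + 2)).succ = (2 : Fin (n + 3)) := rfl
  rw [h2] at h
  rw [h]
  have e1 : ex (swap (0 : Fin (n + 2)) 1) = swap 1 2 := by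
    rw [ex_swap]; rfl
  rw [e1]
  have h3 := swap_apply_apply (swap (0 : Fin (n + 3)) 1) 1 2
  have h4 := swap_apply_apply (swap (1 : Fin (n + 3)) 2) 0 1
  have f1 : swap (0 : Fin (n + 3)) 1 1 = 0 := swap_apply_right _ _
  have g1 : (1 : Fin (n + 3)) ≠ 0 := Fin.succ_ne_zero (0 : Fin (n + 2))
  have g2 : (2 : Fin (n + 3)) ≠ 0 := Fin.succ_ne_zero (1 : Fin (n + 2))
  have g3 : (2 : Fin (n + 3)) ≠ 1 := fun h =>
    Fin.succ_ne_zero (0 : Fin (n + 1))
      (Fin.succ_injective (n + 2) (a₁ := (1 : Fin (n + 2))) (a₂ := (0 : Fin (n + 2))) h)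
  have f2 : swap (0 : Fin (n + 3)) 1 2 = 2 := swap_apply_of_ne_of_ne g2 g3
  have f3 : swap (1 : Fin (n + 3)) 2 0 = 0 := swap_apply_of_ne_of_ne g1.symm g2.symm
  have f4 : swap (1 : Fin (n + 3)) 2 1 = 2 := swap_apply_left _ _
  rw [f1, f2, swap_inv] at h3
  rw [f3, f4, swap_inv] at h4
  rw [← h3, ← h4]

lemma S_eq (n : ℕ) : S T n = T.s (n + 1) * T.ι (n + 2) (T.s n) * T.s (n + 1) := by
  rw [S, swap02, map_mul, map_mul, T.th_ex, T.th_swap_one, T.th_swap_one]

lemma S_comm (n : ℕ) (a : A n) : S T n * T.ι (n + 2) (T.ι (n + 1) (T.ι n a)) =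
    T.ι (n + 2) (T.ι (n + 1) (T.ι n a)) * S T n := by
  rw [S_eq]
  have h1 := T.s_comm (n + 1) (T.ι n a)
  have h2 : T.ι (n + 2) (T.s n) * T.ι (n + 2) (T.ι (n + 1) (T.ι n a)) =
      T.ι (n + 2) (T.ι (n + 1) (T.ι n a)) * T.ι (n + 2) (T.s n) := by
    rw [← map_mul, T.s_comm, map_mul]
  calc T.s (n + 1) * T.ι (n + 2) (T.s n) * T.s (n + 1) * T.ι (n + 2) (T.ι (n + 1) (T.ι n a))
      = T.s (n + 1) * T.ι (n + 2) (T.s n) *
          (T.s (n + 1) * T.ι (n + 2) (T.ι (n + 1) (T.ι n a))) := by simp only [mul_assoc]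
    _ = T.s (n + 1) * (T.ι (n + 2) (T.s n) * T.ι (n + 2) (T.ι (n + 1) (T.ι n a))) *
          T.s (n + 1) := by rw [h1]; simp only [mul_assoc]
    _ = (T.s (n + 1) * T.ι (n + 2) (T.ι (n + 1) (T.ι n a))) * T.ι (n + 2) (T.s n) *
          T.s (n + 1) := by rw [h2]; simp only [mul_assoc]
    _ = _ := by rw [h1]; simp only [mul_assoc]

end basic

lemma S_e (n : ℕ) : S T n * B.e (n + 1) = T.ι (n + 2) (B.e n) * S T n := B.conj n

lemma S_ιe (n : ℕ) : S T n * T.ι (n + 2) (B.e n) = B.e (n + 1) * S T n := by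
  have h := congrArg (fun x => S T n * x * S T n) (B.S_e n)
  calc S T n * T.ι (n + 2) (B.e n) = S T n * (T.ι (n + 2) (B.e n) * S T n) * S T n := by
        rw [mul_assoc, mul_assoc, S_sq, mul_one]
    _ = S T n * (S T n * B.e (n + 1)) * S T n := h.symm
    _ = _ := by rw [← mul_assoc, S_sq, one_mul]

lemma e_S (n : ℕ) : B.e (n + 1) * T.ι (n + 2) (B.e n) = B.e (n + 1) * S T n := B.e_e n

lemma ιe_e (n : ℕ) : T.ι (n + 2) (B.e n) * B.e (n + 1) = T.ι (n + 2) (B.e n) * S T n := by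
  have h := congrArg (fun x => S T n * x * S T n) (B.e_S n)
  have h1 : S T n * (B.e (n + 1) * T.ι (n + 2) (B.e n)) * S T n =
      T.ι (n + 2) (B.e n) * B.e (n + 1) := by
    rw [← mul_assoc, B.S_e, mul_assoc, mul_assoc, ← mul_assoc (S T n) (T.ι _ _), B.S_ιe,
      mul_assoc, S_sq, mul_one]
  have h2 : S T n * (B.e (n + 1) * S T n) * S T n = T.ι (n + 2) (B.e n) * S T n := by
    rw [mul_assoc, mul_assoc, S_sq, mul_one, B.S_e]
  rw [h1, h2] at h
  exact h

lemma e_S_e (n : ℕ) : B.e (n + 1) * S T n * B.e (n + 1) = B.e (n + 1) := by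
  rw [mul_assoc, B.S_e, ← mul_assoc, B.e_S, mul_assoc, S_sq, mul_one]

/-- the product of `r` operators on the newest `2 r` positions -/
def F : ∀ (r m : ℕ), A m
  | 0, _ => 1
  | _ + 1, 0 => 0
  | _ + 1, 1 => 0
  | r + 1, m + 2 => B.e m * T.ι (m + 1) (T.ι m (F r m))

@[simp] lemma F_zero (m : ℕ) : B.F 0 m = 1 := by
  rcases m with - | - | m <;> rfl

lemma F_succ (r m : ℕ) : B.F (r + 1) (m + 2) = B.e m * T.ι (m + 1) (T.ι m (B.F r m)) := rfl

lemma F_small : ∀ (r m : ℕ), m < 2 * r → B.F r m = 0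
  | 0, m, h => by omega
  | _ + 1, 0, _ => rfl
  | _ + 1, 1, _ => rfl
  | r + 1, m + 2, h => by
    rw [F_succ, F_small r m (by omega), map_zero, map_zero, mul_zero]

/-- The left ideal generated by the products of `r` operators at disjoint pairs of positions. -/
def L (r m : ℕ) : Submodule ℚ (A m) :=
  Submodule.span ℚ {x | ∃ (a : A m) (σ : Perm (Fin m)), x = a * B.F r m * T.th m σ}

variable {B}

lemma mem_L {r m : ℕ} (a : A m) (σ : Perm (Fin m)) : a * B.F r m * T.th m σ ∈ B.L r m :=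
  Submodule.subset_span ⟨a, σ, rfl⟩

/-- Linear maps into submodules. -/
lemma L_map {r m : ℕ} {V : Type*} [AddCommGroup V] [Module ℚ V] (f : A m →ₗ[ℚ] V)
    (N : Submodule ℚ V) (h : ∀ a σ, f (a * B.F r m * T.th m σ) ∈ N) {x : A m}
    (hx : x ∈ B.L r m) : f x ∈ N := by
  have : B.L r m ≤ N.comap f := by
    refine Submodule.span_le.2 ?_
    rintro _ ⟨a, σ, rfl⟩
    exact h a σ
  exact this hx

lemma L_left {r m : ℕ} {x : A m} (hx : x ∈ B.L r m) (a : A m) : a * x ∈ B.L r m := by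
  refine L_map (LinearMap.mulLeft ℚ a) _ (fun b σ => ?_) hx
  have : LinearMap.mulLeft ℚ a (b * B.F r m * T.th m σ) = (a * b) * B.F r m * T.th m σ := by
    simp [mul_assoc]
  rw [this]
  exact mem_L _ _

lemma L_th {r m : ℕ} {x : A m} (hx : x ∈ B.L r m) (τ : Perm (Fin m)) :
    x * T.th m τ ∈ B.L r m := by
  refine L_map (LinearMap.mulRight ℚ (T.th m τ)) _ (fun b σ => ?_) hx
  have : LinearMap.mulRight ℚ (T.th m τ) (b * B.F r m * T.th m σ) =
      b * B.F r m * T.th m (σ * τ) := by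
    simp [mul_assoc]
  rw [this]
  exact mem_L _ _

lemma L_zero {m : ℕ} (x : A m) : x ∈ B.L 0 m := by
  have := mem_L (B := B) (r := 0) x (1 : Perm (Fin m))
  simpa using this

lemma F_mem (r m : ℕ) : B.F r m ∈ B.L r m := by
  have := mem_L (B := B) (r := r) (1 : A m) (1 : Perm (Fin m))
  simpa using this

lemma L_e {r m : ℕ} {x : A m} (hx : x ∈ B.L r m) :
    B.e m * T.ι (m + 1) (T.ι m x) ∈ B.L (r + 1) (m + 2) := by
  refine L_map ((LinearMap.mulLeft ℚ (B.e m)).comp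
    ((T.ι (m + 1)).toLinearMap.comp (T.ι m).toLinearMap)) _ (fun a σ => ?_) hx
  have : ((LinearMap.mulLeft ℚ (B.e m)).comp
      ((T.ι (m + 1)).toLinearMap.comp (T.ι m).toLinearMap)) (a * B.F r m * T.th m σ) =
      T.ι (m + 1) (T.ι m a) * B.F (r + 1) (m + 2) * T.th (m + 2) (ex (ex σ)) := by
    simp only [LinearMap.comp_apply, LinearMap.mulLeft_apply, AlgHom.toLinearMap_apply, map_mul,
      F_succ, T.th_ex]
    rw [← mul_assoc, ← mul_assoc, B.e_comm]
    simp only [mul_assoc]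
  rw [this]
  exact mem_L _ _

/-- The inclusion moves the arcs. -/
lemma ι_F : ∀ (r m : ℕ), 2 * r ≤ m → ∃ c : Perm (Fin (m + 1)),
    T.ι m (B.F r m) = T.th (m + 1) c * B.F r (m + 1) * T.th (m + 1) c⁻¹
  | 0, m, _ => ⟨1, by simp⟩
  | r + 1, 0, h => by omega
  | r + 1, 1, h => by omega
  | r + 1, m + 2, h => by
    obtain ⟨c, hc⟩ := ι_F r m (by omega)
    refine ⟨swap 0 2 * ex (ex c), ?_⟩
    have e1 : (swap 0 2 * ex (ex c) : Perm (Fin (m + 3)))⁻¹ = ex (ex c⁻¹) * swap 0 2 := by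
      rw [inv_eq_iff_mul_eq_one]
      calc swap 0 2 * ex (ex c) * (ex (ex c⁻¹) * swap 0 2)
          = swap 0 2 * ex (ex (c * c⁻¹)) * swap 0 2 := by simp only [ex_mul, mul_assoc]
        _ = 1 := by rw [mul_inv_cancel, ex_one, ex_one, mul_one, swap_mul_self]
    rw [e1, F_succ, F_succ, map_mul, map_mul, map_mul, T.th_ex, T.th_ex, T.th_ex, T.th_ex]
    have e2 : T.ι (m + 2) (B.e m) = S T m * B.e (m + 1) * S T m := by
      rw [B.S_e, mul_assoc, S_sq, mul_one]
    have e3 : T.th (m + 3) (swap 0 2) = S T m := rfl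
    rw [e2, e3]
    have e4 : T.ι (m + 2) (T.ι (m + 1) (T.ι m (B.F r m))) =
        T.ι (m + 2) (T.ι (m + 1) (T.th (m + 1) c)) *
          T.ι (m + 2) (T.ι (m + 1) (B.F r (m + 1))) *
          T.ι (m + 2) (T.ι (m + 1) (T.th (m + 1) c⁻¹)) := by
      rw [hc]; simp only [map_mul]
    calc S T m * B.e (m + 1) * S T m * T.ι (m + 2) (T.ι (m + 1) (T.ι m (B.F r m)))
        = S T m * (B.e (m + 1) * T.ι (m + 2) (T.ι (m + 1) (T.ι m (B.F r m)))) * S T m := by
          rw [mul_assoc, S_comm]; simp only [mul_assoc]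
      _ = S T m * (B.e (m + 1) * T.ι (m + 2) (T.ι (m + 1) (T.th (m + 1) c)) *
          T.ι (m + 2) (T.ι (m + 1) (B.F r (m + 1))) *
          T.ι (m + 2) (T.ι (m + 1) (T.th (m + 1) c⁻¹))) * S T m := by
          rw [e4]; simp only [mul_assoc]
      _ = _ := by rw [B.e_comm]; simp only [mul_assoc]

lemma ι_mem {r m : ℕ} {x : A m} (hx : x ∈ B.L r m) : T.ι m x ∈ B.L r (m + 1) := by
  by_cases h : 2 * r ≤ m
  · obtain ⟨c, hc⟩ := ι_F (B := B) r m h
    refine L_map (T.ι m).toLinearMap _ (fun a σ => ?_) hx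
    have : (T.ι m).toLinearMap (a * B.F r m * T.th m σ) =
        (T.ι m a * T.th (m + 1) c) * B.F r (m + 1) * T.th (m + 1) (c⁻¹ * ex σ) := by
      simp only [AlgHom.toLinearMap_apply, map_mul, hc, T.th_ex, mul_assoc]
    rw [this]
    exact mem_L _ _
  · refine L_map (T.ι m).toLinearMap _ (fun a σ => ?_) hx
    rw [F_small B r m (by omega)]
    simp

end Bra

end Pool.Agent.V8H15.BT
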