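import Pool.Agent.V8H15.BT.Fin

/-!
# Antisymmetrizers on sets of positions
-/

set_option autoImplicit false
set_option linter.unusedSectionVars false

open Equiv Equiv.Perm

namespace Pool.Agent.V8H15.BT

open Pool.Agent.V8H87.GG

variable {A : ℕ → Type*} [∀ n, Ring (A n)] [∀ n, Algebra ℚ (A n)] {E : Type*} [Ring E]
    [Algebra ℚ E]

/-- the sign, as a rational number -/
def sg {m : ℕ} (σ : Perm (Fin m)) : ℚ := ((Perm.sign σ : ℤ) : ℚ)

/-- the antisymmetrizer -/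
def Q (T : TT A E) (m : ℕ) : A m := ∑ σ : Perm (Fin m), sg σ • T.th m σ

/-- the antisymmetrizer on the positions in `U` -/
def Y (T : TT A E) {m : ℕ} (U : Finset (Fin m)) : A m := ∑ σ ∈ Comb.SS U, sg σ • T.th m σ

/-- The set `U` contains exactly one end of each arc of `y` and all fixed points of `y`. -/
def Trans {m : ℕ} (y : Perm (Fin m)) (U : Finset (Fin m)) : Prop :=
  ∀ i, (y i = i → i ∈ U) ∧ (y i ≠ i → (i ∈ U ↔ y i ∉ U))

lemma sg_one {m : ℕ} : sg (1 : Perm (Fin m)) = 1 := by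
  simp [sg]

lemma sg_mul {m : ℕ} (σ τ : Perm (Fin m)) : sg (σ * τ) = sg σ * sg τ := by
  simp [sg]

lemma sg_inv {m : ℕ} (σ : Perm (Fin m)) : sg σ⁻¹ = sg σ := by
  simp [sg]

lemma sg_sq {m : ℕ} (σ : Perm (Fin m)) : sg σ * sg σ = 1 := by
  rcases Int.units_eq_one_or (Perm.sign σ) with h | h <;> simp [sg, h]

lemma sg_swap {m : ℕ} {i j : Fin m} (h : i ≠ j) : sg (swap i j) = -1 := by
  simp [sg, Perm.sign_swap h]

end Pool.Agent.V8H15.BT
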