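import Pool.Agent.V8H15.BT.Alg

/-!
# The ideals of arcs
-/

set_option autoImplicit false
set_option linter.unusedSectionVars false

open Equiv Equiv.Perm

namespace Pool.Agent.V8H15.BT

open Pool.Agent.V8H87.GG

variable {A : ℕ → Type*} [∀ n, Ring (A n)] [∀ n, Algebra ℚ (A n)] {E : Type*} [Ring E]
    [Algebra ℚ E]

namespace Bra

variable {T : TT A E} {B : Bra T}

lemma ex_inv {n : ℕ} (e : Perm (Fin n)) : (ex e)⁻¹ = ex e⁻¹ := by
  rw [inv_eq_iff_mul_eq_one, ← ex_mul, mul_inv_cancel, ex_one]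

lemma th_mul_inv {n : ℕ} (σ : Perm (Fin n)) : T.th n σ * T.th n σ⁻¹ = 1 := by
  rw [← map_mul, mul_inv_cancel, map_one]

lemma th_inv_mul {n : ℕ} (σ : Perm (Fin n)) : T.th n σ⁻¹ * T.th n σ = 1 := by
  rw [← map_mul, inv_mul_cancel, map_one]

/-- permutations of the old positions commute with `e` -/
lemma e_th (n : ℕ) (σ : Perm (Fin n)) :
    B.e n * T.th (n + 2) (ex (ex σ)) = T.th (n + 2) (ex (ex σ)) * B.e n := by
  rw [T.th_ex, T.th_ex, B.e_comm]

lemma e_th01 (n : ℕ) : B.e n * T.th (n + 2) (swap 0 1) = B.e n := by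
  rw [T.th_swap_one, B.e_s]

lemma th01_e (n : ℕ) : T.th (n + 2) (swap 0 1) * B.e n = B.e n := by
  rw [T.th_swap_one, B.s_e]

lemma swap0_conj {n : ℕ} (i : Fin (n + 1)) : (swap 0 i.succ.succ : Perm (Fin (n + 3))) =
    ex (ex (swap 0 i)) * swap 0 2 * ex (ex (swap 0 i)) := by
  have h := swap_apply_apply (ex (ex (swap (0 : Fin (n + 1)) i))) 0 2
  have h1 : ex (ex (swap (0 : Fin (n + 1)) i)) 2 = i.succ.succ := by
    have : (2 : Fin (n + 3)) = Fin.succ (Fin.succ 0) := rfl
    rw [this, ex_succ, ex_succ, swap_apply_left]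
  rw [ex_zero, h1] at h
  rw [h, ex_inv, ex_inv, swap_inv]

lemma e_swap_e {n : ℕ} (i : Fin n) :
    B.e n * T.th (n + 2) (swap 0 i.succ.succ) * B.e n = B.e n := by
  rcases n with - | n
  · exact i.elim0
  · rw [swap0_conj, map_mul, map_mul]
    have h0 := B.e_S_e n
    rw [S] at h0
    calc B.e (n + 1) * (T.th (n + 3) (ex (ex (swap 0 i))) * T.th (n + 3) (swap 0 2) *
          T.th (n + 3) (ex (ex (swap 0 i)))) * B.e (n + 1)
        = (B.e (n + 1) * T.th (n + 3) (ex (ex (swap 0 i)))) * T.th (n + 3) (swap 0 2) *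
          (T.th (n + 3) (ex (ex (swap 0 i))) * B.e (n + 1)) := by simp only [mul_assoc]
      _ = T.th (n + 3) (ex (ex (swap 0 i))) *
          (B.e (n + 1) * T.th (n + 3) (swap 0 2) * B.e (n + 1)) *
          T.th (n + 3) (ex (ex (swap 0 i))) := by
          have hK := e_th (B := B) (n + 1) (swap 0 i)
          calc _ = (T.th (n + 3) (ex (ex (swap 0 i))) * B.e (n + 1)) * T.th (n + 3) (swap 0 2) *
              (B.e (n + 1) * T.th (n + 3) (ex (ex (swap 0 i)))) := by rw [hK]
            _ = _ := by simp only [mul_assoc]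
      _ = B.e (n + 1) := by
          rw [h0, ← e_th, mul_assoc, ← map_mul, ← ex_mul, ← ex_mul, swap_mul_self, ex_one, ex_one,
            map_one, mul_one]

lemma swap1_eq {n : ℕ} (i : Fin n) : (swap 1 i.succ.succ : Perm (Fin (n + 2))) =
    swap 0 1 * swap 0 i.succ.succ * swap 0 1 := by
  have h := swap_apply_apply (swap (0 : Fin (n + 2)) 1) 0 i.succ.succ
  have h1 : swap (0 : Fin (n + 2)) 1 i.succ.succ = i.succ.succ :=
    swap_apply_of_ne_of_ne (Fin.succ_ne_zero _) (fun h => Fin.succ_ne_zero i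
      (Fin.succ_injective (n + 1) (a₁ := i.succ) (a₂ := (0 : Fin (n + 1))) h))
  rw [swap_apply_left, h1, swap_inv] at h
  exact h

lemma e_swap1_e {n : ℕ} (i : Fin n) :
    B.e n * T.th (n + 2) (swap 1 i.succ.succ) * B.e n = B.e n := by
  rw [swap1_eq, map_mul, map_mul]
  calc B.e n * (T.th (n + 2) (swap 0 1) * T.th (n + 2) (swap 0 i.succ.succ) *
        T.th (n + 2) (swap 0 1)) * B.e n
      = (B.e n * T.th (n + 2) (swap 0 1)) * T.th (n + 2) (swap 0 i.succ.succ) *
        (T.th (n + 2) (swap 0 1) * B.e n) := by simp only [mul_assoc]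
    _ = _ := by rw [e_th01, th01_e, e_swap_e]

lemma swap_swap_comp {n : ℕ} (i : Fin n) : (swap 1 i.succ.succ * swap 0 i.succ.succ :
    Perm (Fin (n + 2))) = swap 0 i.succ.succ * swap 0 1 := by
  rw [swap1_eq]
  have h : (swap 0 1 * swap 0 i.succ.succ * swap 0 1 * swap 0 i.succ.succ : Perm (Fin (n + 2)))
      = swap 0 i.succ.succ * (swap 0 1) := by
    have h1 := swap_apply_apply (swap (0 : Fin (n + 2)) i.succ.succ) 0 1
    have h2 : swap (0 : Fin (n + 2)) i.succ.succ 1 = 1 :=
      swap_apply_of_ne_of_ne (Fin.succ_ne_zero (0 : Fin (n + 1))) (fun h => Fin.succ_ne_zero i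
        (Fin.succ_injective (n + 1) (a₁ := i.succ) (a₂ := (0 : Fin (n + 1))) h.symm))
    rw [swap_apply_left, h2, swap_inv] at h1
    have h3 := swap_apply_apply (swap (0 : Fin (n + 2)) 1) 0 i.succ.succ
    have h4 : swap (0 : Fin (n + 2)) 1 i.succ.succ = i.succ.succ :=
      swap_apply_of_ne_of_ne (Fin.succ_ne_zero _) (fun h => Fin.succ_ne_zero i
        (Fin.succ_injective (n + 1) (a₁ := i.succ) (a₂ := (0 : Fin (n + 1))) h))
    rw [swap_apply_left, h4, swap_inv] at h3
    rw [← h3, swap_comm 1 i.succ.succ, h1, mul_assoc, swap_mul_self, mul_one]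
  exact h

lemma exists_perm {n : ℕ} {i j : Fin (n + 2)} (h : i ≠ j) :
    ∃ ρ : Perm (Fin (n + 2)), ρ 0 = i ∧ ρ 1 = j := by
  refine ⟨swap 0 i * swap 1 (swap 0 i j), ?_, ?_⟩
  · rw [Perm.mul_apply]
    have h1 : (swap 0 i j : Fin (n + 2)) ≠ 0 := by
      intro h2
      have : swap 0 i j = swap 0 i i := by rw [h2, swap_apply_right]
      exact h ((swap 0 i).injective this).symm
    have h10 : (1 : Fin (n + 2)) ≠ 0 := Fin.succ_ne_zero (0 : Fin (n + 1))
    rw [swap_apply_of_ne_of_ne h10.symm h1.symm, swap_apply_left]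
  · rw [Perm.mul_apply, swap_apply_left, swap_apply_self]

/-- exchanging the arc `{0, 1}` with the arc `{2, 3}` -/
lemma two_e (n : ℕ) : T.ι (n + 3) (S T n) * S T (n + 1) * B.e (n + 2) =
    T.ι (n + 3) (T.ι (n + 2) (B.e n)) * (T.ι (n + 3) (S T n) * S T (n + 1)) := by
  rw [mul_assoc, B.S_e (n + 1), ← mul_assoc, ← map_mul, B.S_e n, map_mul, mul_assoc]

lemma e_mem (m : ℕ) : B.e m ∈ B.L 1 (m + 2) := by
  have := L_e (B := B) (L_zero (B := B) (1 : A m))
  simpa using this

lemma two_conj {n : ℕ} (ρ : Perm (Fin (n + 2))) :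
    (swap 1 (ρ 1).succ.succ * swap 0 (ρ 0).succ.succ : Perm (Fin (n + 4))) =
      ex (ex ρ) * (ex (swap 0 2) * swap 0 2) * (ex (ex ρ))⁻¹ := by
  have h1 := swap_apply_apply (ex (ex ρ)) 0 2
  have h2 : ex (ex ρ) 2 = (ρ 0).succ.succ := by
    have : (2 : Fin (n + 4)) = Fin.succ (Fin.succ 0) := rfl
    rw [this, ex_succ, ex_succ]
  rw [ex_zero, h2] at h1
  have h3 := swap_apply_apply (ex (ex ρ)) 1 3
  have h4 : ex (ex ρ) 1 = 1 := by
    have : (1 : Fin (n + 4)) = Fin.succ 0 := rfl
    rw [this, ex_succ, ex_zero]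
  have h5 : ex (ex ρ) 3 = (ρ 1).succ.succ := by
    have : (3 : Fin (n + 4)) = Fin.succ (Fin.succ 1) := rfl
    rw [this, ex_succ, ex_succ]
  rw [h4, h5] at h3
  have h6 : ex (swap (0 : Fin (n + 3)) 2) = swap 1 3 := by rw [ex_swap]; rfl
  rw [h1, h3, h6]
  group

/-- The ideals are stable under multiplication with `e` on the right. -/
lemma L_mul_e : ∀ {r m : ℕ} {x : A (m + 2)}, x ∈ B.L r (m + 2) → x * B.e m ∈ B.L r (m + 2)
  | 0, m, x, _ => L_zero _
  | r + 1, m, x, hx => by
    have ih : ∀ {n : ℕ} {y : A (n + 2)}, y ∈ B.L r (n + 2) → y * B.e n ∈ B.L r (n + 2) :=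
      fun {n} {y} hy => L_mul_e hy
    refine L_map (LinearMap.mulRight ℚ (B.e m)) _ (fun a σ => ?_) hx
    rw [LinearMap.mulRight_apply]
    -- the essential case
    have key : ∀ (y : A m), y ∈ B.L r m → ∀ (q : Fin (m + 1)) (p : Fin (m + 2)),
        B.e m * T.ι (m + 1) (T.ι m y) * T.th (m + 2) (swap 1 q.succ) *
          T.th (m + 2) (swap 0 p) * B.e m ∈ B.L (r + 1) (m + 2) := by
      intro y hy q p
      have hye := L_e (B := B) hy
      have c1 : B.e m * T.ι (m + 1) (T.ι m y) * T.th (m + 2) (swap 1 q.succ) * B.e m ∈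
          B.L (r + 1) (m + 2) := by
        refine Fin.cases ?_ (fun j => ?_) q
        · have : (swap 1 (Fin.succ 0) : Perm (Fin (m + 2))) = 1 := swap_self _
          rw [this, map_one, mul_one, mul_assoc, ← B.e_comm]
          exact L_left hye _
        · rw [B.e_comm, mul_assoc, mul_assoc, ← mul_assoc (B.e m), e_swap1_e, ← B.e_comm]
          exact hye
      refine Fin.cases ?_ (fun p1 => Fin.cases ?_ (fun i => ?_) p1) p
      · have : (swap 0 0 : Perm (Fin (m + 2))) = 1 := swap_self _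
        rw [this, map_one, mul_one]
        exact c1
      · have : (swap 0 (Fin.succ 0) : Perm (Fin (m + 2))) = swap 0 1 := rfl
        rw [this, mul_assoc _ _ (B.e m), th01_e]
        exact c1
      · have c2 : B.e m * T.ι (m + 1) (T.ι m y) * T.th (m + 2) (swap 0 i.succ.succ) * B.e m ∈
            B.L (r + 1) (m + 2) := by
          rw [B.e_comm, mul_assoc, mul_assoc, ← mul_assoc (B.e m), e_swap_e, ← B.e_comm]
          exact hye
        refine Fin.cases ?_ (fun j => ?_) q
        · have : (swap 1 (Fin.succ 0) : Perm (Fin (m + 2))) = 1 := swap_self _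
          rw [this, map_one, mul_one]
          exact c2
        · by_cases hij : i = j
          · subst hij
            rw [mul_assoc _ (T.th _ _) (T.th _ _), ← map_mul, swap_swap_comp, map_mul,
              mul_assoc _ _ (B.e m), mul_assoc (T.th _ _) _ (B.e m), th01_e, ← mul_assoc]
            exact c2
          · rcases m with - | - | n
            · exact i.elim0
            · exact absurd (Fin.ext (by omega)) hij
            · obtain ⟨ρ, h0, h1⟩ := exists_perm hij
              have e1 : T.th (n + 4) (swap 1 j.succ.succ) * T.th (n + 4) (swap 0 i.succ.succ) =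
                  T.ι (n + 3) (T.ι (n + 2) (T.th (n + 2) ρ)) *
                    (T.ι (n + 3) (S T n) * S T (n + 1)) *
                    T.ι (n + 3) (T.ι (n + 2) (T.th (n + 2) ρ⁻¹)) := by
                rw [← map_mul, ← h0, ← h1, two_conj, map_mul, map_mul, map_mul, ex_inv, ex_inv,
                  T.th_ex, T.th_ex, T.th_ex, T.th_ex, T.th_ex]
                rfl
              have e2 : B.e (n + 2) * T.ι (n + 3) (T.ι (n + 2) y) *
                  T.th (n + 4) (swap 1 j.succ.succ) * T.th (n + 4) (swap 0 i.succ.succ) *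
                  B.e (n + 2) = (B.e (n + 2) *
                    T.ι (n + 3) (T.ι (n + 2) (y * T.th (n + 2) ρ * B.e n))) *
                    T.th (n + 4) (ex (swap 0 2) * swap 0 2 * ex (ex ρ⁻¹)) := by
                have e3 : T.th (n + 4) (ex (swap 0 2) * swap 0 2 * ex (ex ρ⁻¹)) =
                    T.ι (n + 3) (S T n) * S T (n + 1) *
                    T.ι (n + 3) (T.ι (n + 2) (T.th (n + 2) ρ⁻¹)) := by
                  rw [map_mul, map_mul, T.th_ex, T.th_ex, T.th_ex]; rfl
                rw [e3, map_mul, map_mul, map_mul, map_mul]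
                calc B.e (n + 2) * T.ι (n + 3) (T.ι (n + 2) y) *
                    T.th (n + 4) (swap 1 j.succ.succ) * T.th (n + 4) (swap 0 i.succ.succ) *
                    B.e (n + 2) = B.e (n + 2) * T.ι (n + 3) (T.ι (n + 2) y) *
                    (T.th (n + 4) (swap 1 j.succ.succ) * T.th (n + 4) (swap 0 i.succ.succ)) *
                    B.e (n + 2) := by simp only [mul_assoc]
                  _ = B.e (n + 2) * T.ι (n + 3) (T.ι (n + 2) y) *
                    T.ι (n + 3) (T.ι (n + 2) (T.th (n + 2) ρ)) *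
                    (T.ι (n + 3) (S T n) * S T (n + 1)) *
                    (T.ι (n + 3) (T.ι (n + 2) (T.th (n + 2) ρ⁻¹)) * B.e (n + 2)) := by
                    rw [e1]; simp only [mul_assoc]
                  _ = B.e (n + 2) * T.ι (n + 3) (T.ι (n + 2) y) *
                    T.ι (n + 3) (T.ι (n + 2) (T.th (n + 2) ρ)) *
                    (T.ι (n + 3) (S T n) * S T (n + 1) * B.e (n + 2)) *
                    T.ι (n + 3) (T.ι (n + 2) (T.th (n + 2) ρ⁻¹)) := by
                    rw [← B.e_comm]; simp only [mul_assoc]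
                  _ = _ := by rw [two_e]; simp only [mul_assoc]
              rw [e2]
              exact L_th (L_e (ih (L_th hy ρ))) _
    -- reduction to the essential case
    obtain ⟨⟨p, σ'⟩, hσ⟩ := (exsw_bij (m + 1)).2 σ
    obtain ⟨⟨q, ρ⟩, hσ'⟩ := (exsw_bij m).2 σ'
    simp only at hσ hσ'
    have e4 : T.th (m + 2) σ = T.ι (m + 1) (T.ι m (T.th m ρ)) *
        T.th (m + 2) (swap 1 q.succ) * T.th (m + 2) (swap 0 p) := by
      rw [← hσ, ← hσ', ex_mul, ex_swap, map_mul, map_mul, T.th_ex, T.th_ex]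
      rfl
    have e5 : a * B.F (r + 1) (m + 2) * T.th (m + 2) σ * B.e m =
        a * (B.e m * T.ι (m + 1) (T.ι m (B.F r m * T.th m ρ)) * T.th (m + 2) (swap 1 q.succ) *
          T.th (m + 2) (swap 0 p) * B.e m) := by
      rw [e4, F_succ, map_mul, map_mul]; simp only [mul_assoc]
    rw [e5]
    exact L_left (key _ (L_th (F_mem r m) ρ) q p) _

end Bra

end Pool.Agent.V8H15.BT
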