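import Pool.Agent.V8H15.BT.Alg2

/-!
# Partial traces of the symmetrised products of pairings
-/

set_option autoImplicit false
set_option linter.unusedSectionVars false

open Equiv Equiv.Perm

namespace Pool.Agent.V8H15.BT

open Pool.Agent.V8H87.GG

variable {A : ℕ → Type*} [∀ n, Ring (A n)] [∀ n, Algebra ℚ (A n)] {E : Type*} [Ring E]
    [Algebra ℚ E]

namespace Bra

variable {T : TT A E} (B : Bra T)

/-- the operator `e` at the positions `0` and `q + 1` -/
def E0 : ∀ {n : ℕ}, Fin n → A (n + 1)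
  | 0, q => q.elim0
  | k + 1, q => T.ι (k + 1) (T.th (k + 1) (swap 0 q)) * B.e k * T.ι (k + 1) (T.th (k + 1) (swap 0 q))

lemma E0_def {k : ℕ} (q : Fin (k + 1)) : B.E0 q =
    T.ι (k + 1) (T.th (k + 1) (swap 0 q)) * B.e k * T.ι (k + 1) (T.th (k + 1) (swap 0 q)) := rfl

variable {B}

lemma E0_mem {n : ℕ} (q : Fin n) : B.E0 q ∈ B.L 1 (n + 1) := by
  rcases n with - | k
  · exact q.elim0
  · rw [E0_def, ← T.th_ex]
    exact L_th (L_left (e_mem k) _) _

lemma L_mul_E0 {r n : ℕ} {x : A (n + 1)} (hx : x ∈ B.L r (n + 1)) (q : Fin n) :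
    x * B.E0 q ∈ B.L r (n + 1) := by
  rcases n with - | k
  · exact q.elim0
  · rw [E0_def, ← T.th_ex, ← mul_assoc, ← mul_assoc]
    exact L_th (L_mul_e (L_th hx _)) _

lemma e_swap {n : ℕ} (q : Fin n) :
    B.e n * T.th (n + 2) (swap 0 q.succ.succ) = B.e n * T.ι (n + 1) (B.E0 q) := by
  rcases n with - | k
  · exact q.elim0
  · rw [swap0_conj, map_mul, map_mul, E0_def, map_mul, map_mul, T.th_ex, T.th_ex]
    have h1 := B.e_comm (k + 1) (T.th (k + 1) (swap 0 q))
    have h2 : B.e (k + 1) * T.th (k + 3) (swap 0 2) = B.e (k + 1) * T.ι (k + 2) (B.e k) :=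
      (B.e_e k).symm
    calc B.e (k + 1) * (T.ι (k + 2) (T.ι (k + 1) (T.th (k + 1) (swap 0 q))) *
          T.th (k + 3) (swap 0 2) * T.ι (k + 2) (T.ι (k + 1) (T.th (k + 1) (swap 0 q))))
        = (B.e (k + 1) * T.ι (k + 2) (T.ι (k + 1) (T.th (k + 1) (swap 0 q)))) *
          T.th (k + 3) (swap 0 2) * T.ι (k + 2) (T.ι (k + 1) (T.th (k + 1) (swap 0 q))) := by
          simp only [mul_assoc]
      _ = T.ι (k + 2) (T.ι (k + 1) (T.th (k + 1) (swap 0 q))) *
          (B.e (k + 1) * T.th (k + 3) (swap 0 2)) *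
          T.ι (k + 2) (T.ι (k + 1) (T.th (k + 1) (swap 0 q))) := by
          rw [h1]; simp only [mul_assoc]
      _ = (T.ι (k + 2) (T.ι (k + 1) (T.th (k + 1) (swap 0 q))) * B.e (k + 1)) *
          T.ι (k + 2) (B.e k) *
          T.ι (k + 2) (T.ι (k + 1) (T.th (k + 1) (swap 0 q))) := by
          rw [h2]; simp only [mul_assoc]
      _ = _ := by rw [← h1]; simp only [mul_assoc]

/-- the partial trace of an arc with one end at the newest position -/
lemma pt_arc_zero {n : ℕ} (a : A (n + 2)) (y : A n) :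
    T.pt (n + 1) (a * (B.e n * T.ι (n + 1) (T.ι n y)) * T.th (n + 2) (swap 0 0)) =
      T.pt (n + 1) (a * B.e n) * T.ι n y := by
  rw [swap_self, ← Perm.one_def, map_one, mul_one, ← mul_assoc, T.pt_right]

lemma pt_arc_one {n : ℕ} (a : A (n + 2)) (y : A n) :
    T.pt (n + 1) (a * (B.e n * T.ι (n + 1) (T.ι n y)) * T.th (n + 2) (swap 0 1)) =
      T.pt (n + 1) (a * B.e n) * T.ι n y := by
  have h : a * (B.e n * T.ι (n + 1) (T.ι n y)) * T.th (n + 2) (swap 0 1) =
      (a * B.e n) * T.ι (n + 1) (T.ι n y) := by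
    rw [B.e_comm, mul_assoc, mul_assoc, e_th01, ← B.e_comm, mul_assoc]
  rw [h, T.pt_right]

lemma pt_arc_succ {n : ℕ} (a : A (n + 2)) (y : A n) (q : Fin n) :
    T.pt (n + 1) (a * (B.e n * T.ι (n + 1) (T.ι n y)) * T.th (n + 2) (swap 0 q.succ.succ)) =
      T.pt (n + 1) (a * B.e n) * (T.ι n y * B.E0 q) := by
  have h : a * (B.e n * T.ι (n + 1) (T.ι n y)) * T.th (n + 2) (swap 0 q.succ.succ) =
      (a * B.e n) * T.ι (n + 1) (T.ι n y * B.E0 q) := by
    rw [B.e_comm, mul_assoc, mul_assoc, e_swap, ← mul_assoc (T.ι _ _) (B.e n), ← B.e_comm,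
      map_mul]
    simp only [mul_assoc]
  rw [h, T.pt_right]

/-- The partial trace loses at most one arc. -/
lemma pt_mem {r m : ℕ} {x : A (m + 1)} (hx : x ∈ B.L (r + 1) (m + 1)) : T.pt m x ∈ B.L r m := by
  refine L_map (T.pt m) _ (fun a σ => ?_) hx
  rcases m with - | m
  · have : B.F (r + 1) 1 = 0 := rfl
    rw [this, mul_zero, zero_mul, map_zero]
    exact Submodule.zero_mem _
  · obtain ⟨⟨p, σ'⟩, hσ⟩ := (swex_bij (m + 1)).2 σ
    simp only at hσ
    rw [← hσ, map_mul (T.th (m + 2)), ← mul_assoc, T.th_ex, T.pt_right, F_succ]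
    refine L_th ?_ σ'
    have hF := ι_mem (F_mem (B := B) r m)
    refine Fin.cases ?_ (fun p1 => Fin.cases ?_ (fun q => ?_) p1) p
    · rw [pt_arc_zero]
      exact L_left hF _
    · have : (swap 0 (Fin.succ 0) : Perm (Fin (m + 2))) = swap 0 1 := rfl
      rw [this, pt_arc_one]
      exact L_left hF _
    · rw [pt_arc_succ]
      exact L_left (L_mul_E0 hF q) _

/-- Moving the position `0` to the position `2`. -/
lemma E0_shift {n : ℕ} (q : Fin n) :
    B.E0 q.succ.succ = S T n * T.ι (n + 2) (T.ι (n + 1) (B.E0 q)) * S T n := by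
  rcases n with - | k
  · exact q.elim0
  · have h1 := S_comm T (k + 1) (T.th (k + 1) (swap 0 q))
    have h2 := B.e_comm (k + 2) (T.ι (k + 1) (T.th (k + 1) (swap 0 q)))
    have e1 : T.ι (k + 3) (T.th (k + 3) (swap 0 q.succ.succ)) =
        T.ι (k + 3) (T.ι (k + 2) (T.ι (k + 1) (T.th (k + 1) (swap 0 q)))) *
          T.ι (k + 3) (S T k) *
          T.ι (k + 3) (T.ι (k + 2) (T.ι (k + 1) (T.th (k + 1) (swap 0 q)))) := by
      rw [swap0_conj, map_mul, map_mul, map_mul, map_mul, T.th_ex, T.th_ex]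
      rfl
    have hsq : T.ι (k + 3) (T.ι (k + 2) (T.ι (k + 1) (T.th (k + 1) (swap 0 q)))) *
        T.ι (k + 3) (T.ι (k + 2) (T.ι (k + 1) (T.th (k + 1) (swap 0 q)))) = 1 := by
      rw [← map_mul, ← map_mul, ← map_mul, ← map_mul, swap_mul_self, map_one, map_one, map_one,
        map_one]
    set K := T.ι (k + 3) (T.ι (k + 2) (T.ι (k + 1) (T.th (k + 1) (swap 0 q)))) with hK
    -- the basic case
    have hSS : S T (k + 1) * T.ι (k + 3) (S T k) * S T (k + 1) = T.ι (k + 3) (S T k) := by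
      have c1 : S T (k + 1) * T.ι (k + 3) (S T k) = T.ι (k + 3) (S T k) * S T (k + 1) := by
        rw [S, S, ← T.th_ex, ← map_mul, ← map_mul]
        congr 1
        have h6 : ex (swap (0 : Fin (k + 3)) 2) = swap 1 3 := by rw [ex_swap]; rfl
        rw [h6]
        have d := swap_apply_apply (swap (1 : Fin (k + 4)) 3) 0 2
        have g0 : swap (1 : Fin (k + 4)) 3 0 = 0 := by
          apply swap_apply_of_ne_of_ne
          · exact (Fin.succ_ne_zero (0 : Fin (k + 3))).symm
          · exact (Fin.succ_ne_zero (2 : Fin (k + 3))).symm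
        have g2 : swap (1 : Fin (k + 4)) 3 2 = 2 := by
          apply swap_apply_of_ne_of_ne
          · intro h
            exact Fin.succ_ne_zero (0 : Fin (k + 2)) (Fin.succ_injective (k + 3)
              (a₁ := (1 : Fin (k + 3))) (a₂ := (0 : Fin (k + 3))) h)
          · intro h
            have h' := Fin.succ_injective (k + 3)
              (a₁ := (1 : Fin (k + 3))) (a₂ := (2 : Fin (k + 3))) h
            have h'' := Fin.succ_injective (k + 2)
              (a₁ := (0 : Fin (k + 2))) (a₂ := (1 : Fin (k + 2))) h'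
            exact Fin.succ_ne_zero (0 : Fin (k + 1)) h''.symm
        rw [g0, g2, swap_inv] at d
        nth_rewrite 1 [d]
        rw [mul_assoc, mul_assoc, swap_mul_self, mul_one]
      rw [c1, mul_assoc, S_sq, mul_one]
    have e2 : T.ι (k + 3) (T.ι (k + 2) (B.e k)) =
        T.ι (k + 3) (S T k) * (S T (k + 1) * B.e (k + 2) * S T (k + 1)) * T.ι (k + 3) (S T k) := by
      rw [B.S_e, mul_assoc (T.ι _ _) (S T (k + 1)), S_sq, mul_one, ← map_mul, ← map_mul, B.S_e,
        mul_assoc, S_sq, mul_one]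
    have e3 : S T (k + 1) * T.ι (k + 3) (T.ι (k + 2) (B.e k)) * S T (k + 1) =
        T.ι (k + 3) (S T k) * B.e (k + 2) * T.ι (k + 3) (S T k) := by
      rw [e2]
      calc S T (k + 1) * (T.ι (k + 3) (S T k) * (S T (k + 1) * B.e (k + 2) * S T (k + 1)) *
            T.ι (k + 3) (S T k)) * S T (k + 1)
          = (S T (k + 1) * T.ι (k + 3) (S T k) * S T (k + 1)) * B.e (k + 2) *
            (S T (k + 1) * T.ι (k + 3) (S T k) * S T (k + 1)) := by simp only [mul_assoc]
        _ = _ := by rw [hSS]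
    rw [E0_def, e1, E0_def, map_mul, map_mul, map_mul, map_mul, ← hK]
    calc K * T.ι (k + 3) (S T k) * K * B.e (k + 2) * (K * T.ι (k + 3) (S T k) * K)
        = K * T.ι (k + 3) (S T k) * (K * B.e (k + 2)) * K * T.ι (k + 3) (S T k) * K := by
          simp only [mul_assoc]
      _ = K * T.ι (k + 3) (S T k) * B.e (k + 2) * (K * K) * T.ι (k + 3) (S T k) * K := by
          rw [← h2]; simp only [mul_assoc]
      _ = K * (S T (k + 1) * T.ι (k + 3) (T.ι (k + 2) (B.e k)) * S T (k + 1)) * K := by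
          rw [hsq, mul_one, e3]; simp only [mul_assoc]
      _ = (K * S T (k + 1)) * T.ι (k + 3) (T.ι (k + 2) (B.e k)) * (S T (k + 1) * K) := by
          simp only [mul_assoc]
      _ = (S T (k + 1) * K) * T.ι (k + 3) (T.ι (k + 2) (B.e k)) * (K * S T (k + 1)) := by
          rw [h1]
      _ = _ := by simp only [mul_assoc]

/-- A pairing of the free newest position with the position `q + 1`: if the latter is occupied by an
arc, the arc moves, otherwise there is a new arc. -/
lemma arc_E0 : ∀ (r n : ℕ) (q : Fin n),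
    (q.val < 2 * r → ∃ σ, T.ι n (B.F r n) * B.E0 q = T.ι n (B.F r n) * T.th (n + 1) σ) ∧
    (2 * r ≤ q.val → T.ι n (B.F r n) * B.E0 q ∈ B.L (r + 1) (n + 1))
  | 0, n, q => by
    refine ⟨fun h => by omega, fun _ => ?_⟩
    rw [F_zero, map_one, one_mul]
    exact E0_mem q
  | r + 1, 0, q => q.elim0
  | r + 1, 1, q => by
    refine ⟨fun _ => ⟨1, ?_⟩, fun h => ?_⟩
    · have : B.F (r + 1) 1 = 0 := rfl
      rw [this, map_zero, zero_mul, zero_mul]
    · have := q.isLt; omega
  | r + 1, n + 2, q => by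
    have hS : T.ι (n + 2) (B.F (r + 1) (n + 2)) = T.ι (n + 2) (B.e n) *
        T.ι (n + 2) (T.ι (n + 1) (T.ι n (B.F r n))) := by rw [F_succ, map_mul]
    have hc : T.ι (n + 2) (B.e n) * T.ι (n + 2) (T.ι (n + 1) (T.ι n (B.F r n))) =
        T.ι (n + 2) (T.ι (n + 1) (T.ι n (B.F r n))) * T.ι (n + 2) (B.e n) := by
      rw [← map_mul, ← map_mul, B.e_comm]
    refine Fin.cases ?_ (fun q1 => Fin.cases ?_ (fun q => ?_) q1) q
    · refine ⟨fun _ => ⟨swap 0 2, ?_⟩, fun h => ?_⟩
      · have h0 : B.E0 (0 : Fin (n + 2)) = B.e (n + 1) := by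
          rw [E0_def, swap_self, ← Perm.one_def, map_one, map_one, one_mul, mul_one]
        rw [h0, hS, hc, mul_assoc, B.ιe_e, mul_assoc]
        rfl
      · simp at h
    · refine ⟨fun _ => ⟨swap 0 2 * ex (swap 0 1), ?_⟩, fun h => ?_⟩
      · have h0 : B.E0 (Fin.succ 0 : Fin (n + 2)) =
            T.ι (n + 2) (T.s n) * B.e (n + 1) * T.ι (n + 2) (T.s n) := by
          rw [E0_def]
          have : (swap 0 (Fin.succ 0) : Perm (Fin (n + 2))) = swap 0 1 := rfl
          rw [this, T.th_swap_one]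
        have h1 : T.ι (n + 2) (B.e n) * T.ι (n + 2) (T.s n) = T.ι (n + 2) (B.e n) := by
          rw [← map_mul, B.e_s]
        rw [h0, hS, hc, map_mul, T.th_ex, T.th_swap_one]
        calc T.ι (n + 2) (T.ι (n + 1) (T.ι n (B.F r n))) * T.ι (n + 2) (B.e n) *
              (T.ι (n + 2) (T.s n) * B.e (n + 1) * T.ι (n + 2) (T.s n))
            = T.ι (n + 2) (T.ι (n + 1) (T.ι n (B.F r n))) *
              ((T.ι (n + 2) (B.e n) * T.ι (n + 2) (T.s n)) * B.e (n + 1)) *
              T.ι (n + 2) (T.s n) := by simp only [mul_assoc]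
          _ = T.ι (n + 2) (T.ι (n + 1) (T.ι n (B.F r n))) *
              (T.ι (n + 2) (B.e n) * S T n) * T.ι (n + 2) (T.s n) := by rw [h1, B.ιe_e]
          _ = _ := by rw [S]; simp only [mul_assoc]
      · simp at h; omega
    · have hmain : T.ι (n + 2) (B.F (r + 1) (n + 2)) * B.E0 q.succ.succ =
          S T n * (B.e (n + 1) * T.ι (n + 2) (T.ι (n + 1) (T.ι n (B.F r n) * B.E0 q))) *
            S T n := by
        rw [hS, E0_shift, map_mul, map_mul]
        calc T.ι (n + 2) (B.e n) * T.ι (n + 2) (T.ι (n + 1) (T.ι n (B.F r n))) *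
              (S T n * T.ι (n + 2) (T.ι (n + 1) (B.E0 q)) * S T n)
            = T.ι (n + 2) (B.e n) * (T.ι (n + 2) (T.ι (n + 1) (T.ι n (B.F r n))) * S T n) *
              T.ι (n + 2) (T.ι (n + 1) (B.E0 q)) * S T n := by simp only [mul_assoc]
          _ = (T.ι (n + 2) (B.e n) * S T n) * T.ι (n + 2) (T.ι (n + 1) (T.ι n (B.F r n))) *
              T.ι (n + 2) (T.ι (n + 1) (B.E0 q)) * S T n := by
              rw [← S_comm]; simp only [mul_assoc]
          _ = _ := by rw [← B.S_e]; simp only [mul_assoc]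
      obtain ⟨ih1, ih2⟩ := arc_E0 r n q
      refine ⟨fun h => ?_, fun h => ?_⟩
      · obtain ⟨σ, hσ⟩ := ih1 (by simp at h; omega)
        refine ⟨swap 0 2 * ex (ex σ) * swap 0 2, ?_⟩
        rw [hmain, hσ, map_mul, map_mul, map_mul, map_mul, T.th_ex, T.th_ex]
        have hF : S T n * (B.e (n + 1) * T.ι (n + 2) (T.ι (n + 1) (T.ι n (B.F r n)))) =
            T.ι (n + 2) (B.F (r + 1) (n + 2)) * S T n := by
          rw [hS, ← mul_assoc, B.S_e, mul_assoc, S_comm, mul_assoc]
        calc S T n * (B.e (n + 1) * (T.ι (n + 2) (T.ι (n + 1) (T.ι n (B.F r n))) *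
              T.ι (n + 2) (T.ι (n + 1) (T.th (n + 1) σ)))) * S T n
            = (S T n * (B.e (n + 1) * T.ι (n + 2) (T.ι (n + 1) (T.ι n (B.F r n))))) *
              T.ι (n + 2) (T.ι (n + 1) (T.th (n + 1) σ)) * S T n := by simp only [mul_assoc]
          _ = _ := by rw [hF, S]; simp only [mul_assoc]
      · have hz := ih2 (by simp at h; omega)
        rw [hmain]
        exact L_th (L_left (L_e hz) _) _

end Bra

end Pool.Agent.V8H15.BT
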