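import Pool.Agent.V8H15.BT.Alg3

/-!
# The symmetrised product of pairings and the vanishing of symmetric powers
-/

set_option autoImplicit false
set_option linter.unusedSectionVars false

open Equiv Equiv.Perm

namespace Pool.Agent.V8H15.BT

open Pool.Agent.V8H87.GG

variable {A : ℕ → Type*} [∀ n, Ring (A n)] [∀ n, Algebra ℚ (A n)] {E : Type*} [Ring E]
    [Algebra ℚ E]

/-- the sum of all permutations -/
def P (T : TT A E) (m : ℕ) : A m := ∑ σ : Perm (Fin m), T.th m σ

section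

variable {T : TT A E}

lemma th_P {m : ℕ} (σ : Perm (Fin m)) : T.th m σ * P T m = P T m := by
  rw [P, Finset.mul_sum]
  refine Fintype.sum_equiv (Equiv.mulLeft σ) _ _ (fun τ => ?_)
  rw [Equiv.coe_mulLeft, map_mul]

lemma P_th {m : ℕ} (σ : Perm (Fin m)) : P T m * T.th m σ = P T m := by
  rw [P, Finset.sum_mul]
  refine Fintype.sum_equiv (Equiv.mulRight σ) _ _ (fun τ => ?_)
  rw [Equiv.coe_mulRight, map_mul]

lemma P_mul_P (m : ℕ) : P T m * P T m = (m.factorial : ℚ) • P T m := by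
  have h : ∀ x : A m, P T m * x = ∑ σ : Perm (Fin m), T.th m σ * x := fun x => by
    rw [P, Finset.sum_mul]
  rw [h]
  simp only [th_P, Finset.sum_const, Finset.card_univ, Fintype.card_perm, Fintype.card_fin]
  rw [← Nat.cast_smul_eq_nsmul ℚ]

lemma P_succ (m : ℕ) : P T (m + 1) =
    ∑ p : Fin (m + 1), T.th (m + 1) (swap 0 p) * T.ι m (P T m) := by
  rw [P, ← Fintype.sum_bijective _ (swex_bij m) _ _ (fun x => rfl), Fintype.sum_prod_type]
  refine Finset.sum_congr rfl (fun p _ => ?_)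
  rw [P, map_sum, Finset.mul_sum]
  refine Finset.sum_congr rfl (fun e _ => ?_)
  rw [map_mul, T.th_ex]

lemma ιP_P (m : ℕ) : T.ι m (P T m) * P T (m + 1) = (m.factorial : ℚ) • P T (m + 1) := by
  have : T.ι m (P T m) = ∑ σ : Perm (Fin m), T.th (m + 1) (ex σ) := by
    rw [P, map_sum]
    refine Finset.sum_congr rfl (fun e _ => ?_)
    rw [T.th_ex]
  rw [this, Finset.sum_mul]
  simp only [th_P, Finset.sum_const, Finset.card_univ, Fintype.card_perm, Fintype.card_fin]
  rw [← Nat.cast_smul_eq_nsmul ℚ]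

lemma fact_ne (m : ℕ) : (m.factorial : ℚ) ≠ 0 := by
  exact_mod_cast Nat.factorial_ne_zero m

/-- If `x` kills the symmetrizer on the old positions it kills the symmetrizer. -/
lemma ι_mul_P {m : ℕ} {x y : A m} (h : x * P T m = y * P T m) :
    T.ι m x * P T (m + 1) = T.ι m y * P T (m + 1) := by
  have h1 : (m.factorial : ℚ) • (T.ι m x * P T (m + 1)) =
      (m.factorial : ℚ) • (T.ι m y * P T (m + 1)) := by
    rw [← mul_smul_comm, ← mul_smul_comm, ← ιP_P, ← mul_assoc, ← mul_assoc, ← map_mul, ← map_mul,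
      h]
  exact smul_right_injective _ (fact_ne m) h1

end

namespace Bra

variable {T : TT A E} {B : Bra T}

/-- modulo `L`, after multiplication with the symmetrizer -/
def Mod (B : Bra T) (r m : ℕ) (x y : A m) : Prop := ∃ z ∈ B.L r m, x * P T m = (y + z) * P T m

/-- The partial trace of `F (r + 1)` times the symmetrizer. -/
lemma pt_F_P (r n : ℕ) (h : 2 * r ≤ n) : ∃ c : ℚ, 0 < c ∧ ∃ z ∈ B.L (r + 1) (n + 1),
    (n ≤ 2 * r → z = 0) ∧
    T.pt (n + 1) (B.F (r + 1) (n + 2) * P T (n + 2)) =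
      (c • T.ι n (B.F r n) + z) * P T (n + 1) := by
  classical
  have h1 : T.pt (n + 1) (B.F (r + 1) (n + 2) * P T (n + 2)) =
      ∑ p : Fin (n + 2), T.pt (n + 1) (1 * (B.e n * T.ι (n + 1) (T.ι n (B.F r n))) *
        T.th (n + 2) (swap 0 p)) * P T (n + 1) := by
    rw [P_succ, Finset.mul_sum, map_sum]
    refine Finset.sum_congr rfl (fun p _ => ?_)
    rw [← mul_assoc, T.pt_right, F_succ, one_mul]
  have e1 : T.pt (n + 1) (1 * (B.e n * T.ι (n + 1) (T.ι n (B.F r n))) *
        T.th (n + 2) (swap 0 0)) = T.ι n (B.F r n) := by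
    rw [pt_arc_zero, one_mul, B.pt_e, one_mul]
  have e2 : T.pt (n + 1) (1 * (B.e n * T.ι (n + 1) (T.ι n (B.F r n))) *
        T.th (n + 2) (swap 0 (Fin.succ 0))) = T.ι n (B.F r n) := by
    have : (swap 0 (Fin.succ 0) : Perm (Fin (n + 2))) = swap 0 1 := rfl
    rw [this, pt_arc_one, one_mul, B.pt_e, one_mul]
  have e3 : ∀ q : Fin n, T.pt (n + 1) (1 * (B.e n * T.ι (n + 1) (T.ι n (B.F r n))) *
        T.th (n + 2) (swap 0 q.succ.succ)) * P T (n + 1) =
      ((if q.val < 2 * r then (1 : ℚ) else 0) • T.ι n (B.F r n) +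
        (if q.val < 2 * r then 0 else T.ι n (B.F r n) * B.E0 q)) * P T (n + 1) := by
    intro q
    rw [pt_arc_succ, one_mul, B.pt_e, one_mul]
    obtain ⟨a1, a2⟩ := arc_E0 (B := B) r n q
    by_cases hq : q.val < 2 * r
    · obtain ⟨σ, hσ⟩ := a1 hq
      rw [if_pos hq, if_pos hq, hσ, mul_assoc, th_P, one_smul, add_zero]
    · rw [if_neg hq, if_neg hq, zero_smul, zero_add]
  refine ⟨1 + (1 + ∑ q : Fin n, if q.val < 2 * r then (1 : ℚ) else 0), ?_,
    ∑ q : Fin n, (if q.val < 2 * r then 0 else T.ι n (B.F r n) * B.E0 q), ?_, ?_, ?_⟩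
  · have : (0 : ℚ) ≤ ∑ q : Fin n, if q.val < 2 * r then (1 : ℚ) else 0 :=
      Finset.sum_nonneg (fun q _ => by split_ifs <;> norm_num)
    linarith
  · refine Submodule.sum_mem _ (fun q _ => ?_)
    split_ifs with hq
    · exact Submodule.zero_mem _
    · exact (arc_E0 (B := B) r n q).2 (by omega)
  · intro hn
    refine Finset.sum_eq_zero (fun q _ => ?_)
    rw [if_pos]
    have := q.isLt
    omega
  · rw [h1, Fin.sum_univ_succ, Fin.sum_univ_succ, e1, e2]
    simp only [e3]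
    rw [← Finset.sum_mul, Finset.sum_add_distrib, ← Finset.sum_smul, ← add_mul, ← add_mul,
      add_smul, add_smul, one_smul]
    congr 1
    abel

lemma step_D_aux {r n : ℕ} (hn : 2 * r ≤ n)
    (h : ∃ z ∈ B.L (r + 2) (n + 2), B.F (r + 1) (n + 2) * P T (n + 2) = z * P T (n + 2)) :
    ∃ z ∈ B.L (r + 1) (n + 1), B.F r (n + 1) * P T (n + 1) = z * P T (n + 1) := by
  obtain ⟨z, hz, hz'⟩ := h
  obtain ⟨c, hc, w, hw, -, hcw⟩ := pt_F_P (B := B) r n hn
  -- the partial trace of the right hand side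
  have h2 : T.pt (n + 1) (z * P T (n + 2)) = (∑ p : Fin (n + 2),
      T.pt (n + 1) (z * T.th (n + 2) (swap 0 p))) * P T (n + 1) := by
    rw [P_succ, Finset.mul_sum, map_sum, Finset.sum_mul]
    refine Finset.sum_congr rfl (fun p _ => ?_)
    rw [← mul_assoc, T.pt_right]
  have h3 : ∑ p : Fin (n + 2), T.pt (n + 1) (z * T.th (n + 2) (swap 0 p)) ∈
      B.L (r + 1) (n + 1) := Submodule.sum_mem _ (fun p _ => pt_mem (L_th hz _))
  obtain ⟨σ, hσ⟩ := ι_F (B := B) r n (by omega)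
  have h4 : (c • T.ι n (B.F r n) + w) * P T (n + 1) = (∑ p : Fin (n + 2),
      T.pt (n + 1) (z * T.th (n + 2) (swap 0 p))) * P T (n + 1) := by
    rw [← hcw, hz', h2]
  have h5 : c • (T.th (n + 1) σ * (B.F r (n + 1) * P T (n + 1))) =
      ((∑ p : Fin (n + 2), T.pt (n + 1) (z * T.th (n + 2) (swap 0 p))) - w) *
        P T (n + 1) := by
    rw [sub_mul, ← h4, add_mul, add_sub_cancel_right, smul_mul_assoc, hσ, mul_assoc,
      mul_assoc, th_P]
  refine ⟨(c⁻¹ : ℚ) • (T.th (n + 1) σ⁻¹ *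
    ((∑ p : Fin (n + 2), T.pt (n + 1) (z * T.th (n + 2) (swap 0 p))) - w)), ?_, ?_⟩
  · exact Submodule.smul_mem _ _ (L_left (Submodule.sub_mem _ h3 hw) _)
  · rw [smul_mul_assoc, mul_assoc, ← h5, mul_smul_comm, smul_smul, inv_mul_cancel₀ hc.ne',
      one_smul, ← mul_assoc, th_inv_mul, one_mul]

/-- One input of the symmetrised product of `k` pairings after the other becomes an output. -/
lemma step_D {k : ℕ} (h0 : B.F k (2 * k) * P T (2 * k) = 0) : ∀ (i : ℕ), i ≤ k →
    ∃ z ∈ B.L (k - i + 1) (2 * k - i), B.F (k - i) (2 * k - i) * P T (2 * k - i) =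
      z * P T (2 * k - i)
  | 0, _ => ⟨0, Submodule.zero_mem _, by
      rw [zero_mul]
      exact h0⟩
  | i + 1, hi => by
    have ih := step_D h0 i (by omega)
    obtain ⟨r, hr⟩ : ∃ r, k - (i + 1) = r := ⟨_, rfl⟩
    obtain ⟨n, hn⟩ : ∃ n, 2 * k - (i + 1) = n + 1 := ⟨2 * k - (i + 1) - 1, by omega⟩
    have hr' : k - i = r + 1 := by omega
    have hn' : 2 * k - i = n + 2 := by omega
    rw [hr', hn'] at ih
    rw [hr, hn]
    exact step_D_aux (by omega) ih

/-- The symmetrizer on `k` positions has an input arc. -/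
lemma P_mem_one {k : ℕ} (h0 : B.F k (2 * k) * P T (2 * k) = 0) :
    ∃ z ∈ B.L 1 k, P T k = z * P T k := by
  have h := step_D h0 k le_rfl
  have h1 : k - k = 0 := Nat.sub_self k
  have h2 : 2 * k - k = k := by omega
  rw [h1, h2] at h
  simpa using h

lemma P_mem_one_ge {k : ℕ} (h0 : B.F k (2 * k) * P T (2 * k) = 0) : ∀ a, k ≤ a →
    ∃ z ∈ B.L 1 a, P T a = z * P T a := by
  intro a ha
  induction a, ha using Nat.le_induction with
  | base => exact P_mem_one h0
  | succ a ha ih =>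
    obtain ⟨z, hz, hz'⟩ := ih
    refine ⟨T.ι a z, ι_mem hz, ?_⟩
    have h1 := ι_mul_P (T := T) (x := 1) (y := z) (by rw [one_mul]; exact hz')
    rw [map_one, one_mul] at h1
    exact h1

/-- The symmetrizer on many positions has many arcs. -/
lemma P_mem_many {k : ℕ} (hk : 1 ≤ k) (h0 : B.F k (2 * k) * P T (2 * k) = 0) :
    ∀ (s a : ℕ), k + 2 * (s - 1) ≤ a → ∃ z ∈ B.L s a, P T a = z * P T a
  | 0, a, _ => ⟨1, L_zero _, by rw [one_mul]⟩
  | 1, a, h => P_mem_one_ge h0 a (by omega)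
  | s + 2, 0, h => by omega
  | s + 2, 1, h => by omega
  | s + 2, a + 2, h => by
    obtain ⟨y, hy, hy'⟩ := P_mem_many hk h0 (s + 1) a (by omega)
    obtain ⟨x, hx, hx'⟩ := P_mem_one_ge h0 (a + 2) (by omega)
    have h1 : T.ι (a + 1) (T.ι a y) * P T (a + 2) = P T (a + 2) := by
      have h2 := ι_mul_P (T := T) (x := y) (y := 1) (by rw [one_mul]; exact hy'.symm)
      have h3 := ι_mul_P (T := T) h2
      rw [map_one, map_one, one_mul] at h3
      exact h3
    have h4 : ∀ x ∈ B.L 1 (a + 2), ∃ z ∈ B.L (s + 2) (a + 2),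
        x * P T (a + 2) = z * P T (a + 2) := by
      intro x hx
      refine Submodule.span_induction ?_ ?_ ?_ ?_ hx
      · rintro _ ⟨b, σ, rfl⟩
        refine ⟨b * (B.e a * T.ι (a + 1) (T.ι a y)), L_left (L_e hy) _, ?_⟩
        rw [mul_assoc, th_P, F_succ, F_zero, map_one, map_one, mul_one, mul_assoc, mul_assoc,
          mul_assoc, h1]
      · exact ⟨0, Submodule.zero_mem _, rfl⟩
      · rintro u v _ _ ⟨z, hz, hz'⟩ ⟨w, hw, hw'⟩
        exact ⟨z + w, Submodule.add_mem _ hz hw, by rw [add_mul, add_mul, hz', hw']⟩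
      · rintro c u _ ⟨z, hz, hz'⟩
        exact ⟨c • z, Submodule.smul_mem _ _ hz, by rw [smul_mul_assoc, smul_mul_assoc, hz']⟩
    obtain ⟨z, hz, hz'⟩ := h4 x hx
    exact ⟨z, hz, by rw [← hz']; exact hx'⟩

lemma F_P_ge {k : ℕ} (h0 : B.F k (2 * k) * P T (2 * k) = 0) : ∀ a, 2 * k ≤ a →
    B.F k a * P T a = 0 := by
  intro a ha
  induction a, ha using Nat.le_induction with
  | base => exact h0
  | succ a ha ih =>
    obtain ⟨c, hc⟩ := ι_F (B := B) k a ha
    have h1 := ι_mul_P (T := T) (x := B.F k a) (y := 0) (by rw [ih, zero_mul])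
    rw [map_zero, zero_mul, hc, mul_assoc, th_P] at h1
    have h2 := congrArg (fun x => T.th (a + 1) c⁻¹ * x) h1
    simp only [mul_zero] at h2
    rwa [mul_assoc, ← mul_assoc, th_inv_mul, one_mul] at h2

/-- **If the symmetrised product of `k` pairings vanishes, then so does a symmetric power.** -/
theorem sym_zero {k : ℕ} (hk : 1 ≤ k) (h0 : B.F k (2 * k) * P T (2 * k) = 0) :
    P T (3 * k) = 0 := by
  obtain ⟨z, hz, hz'⟩ := P_mem_many hk h0 k (3 * k) (by omega)
  have h1 : ∀ x ∈ B.L k (3 * k), x * P T (3 * k) = 0 := by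
    intro x hx
    refine Submodule.span_induction ?_ ?_ ?_ ?_ hx
    · rintro _ ⟨b, σ, rfl⟩
      rw [mul_assoc, th_P, mul_assoc, F_P_ge h0 _ (by omega), mul_zero]
    · rw [zero_mul]
    · rintro u v _ _ hu hv
      rw [add_mul, hu, hv, add_zero]
    · rintro c u _ hu
      rw [smul_mul_assoc, hu, smul_zero]
  rw [hz', h1 z hz]

/-- The symmetric powers above a vanishing one vanish. -/
lemma P_ge {N : ℕ} (h : P T N = 0) : ∀ a, N ≤ a → P T a = 0 := by
  intro a ha
  induction a, ha using Nat.le_induction with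
  | base => exact h
  | succ a ha ih =>
    rw [P_succ]
    refine Finset.sum_eq_zero (fun p _ => ?_)
    rw [ih, map_zero, mul_zero]

/-- The partial trace of the symmetrizer. -/
lemma pt_P (m : ℕ) : T.pt m (P T (m + 1)) = (T.trE 1 + m) • P T m := by
  rw [P_succ, map_sum, Fin.sum_univ_succ]
  have h0 : T.pt m (T.th (m + 1) (swap 0 0) * T.ι m (P T m)) = T.trE 1 • P T m := by
    have hj := T.pt_j m 1
    rw [map_one] at hj
    rw [T.pt_right, swap_self, ← Perm.one_def, map_one, hj, smul_mul_assoc, one_mul]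
  have h1 : ∀ i : Fin m, T.pt m (T.th (m + 1) (swap 0 i.succ) * T.ι m (P T m)) = P T m := by
    intro i
    rw [T.pt_right, T.pt_swap, one_mul]
  rw [h0]
  simp only [h1, Finset.sum_const, Finset.card_univ, Fintype.card_fin]
  rw [add_smul, ← Nat.cast_smul_eq_nsmul ℚ]

/-- **Descent.** -/
theorem descent {k : ℕ} (hδ : T.trE 1 + 2 * k ≠ 0)
    (h : B.F (k + 1) (2 * k + 2) * P T (2 * k + 2) = 0) : B.F k (2 * k) * P T (2 * k) = 0 := by
  obtain ⟨c, hc, z, -, hz, hcz⟩ := pt_F_P (B := B) k (2 * k) le_rfl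
  rw [hz le_rfl, add_zero, h, map_zero] at hcz
  have h1 : T.ι (2 * k) (B.F k (2 * k)) * P T (2 * k + 1) = 0 := by
    rw [smul_mul_assoc] at hcz
    rcases smul_eq_zero.1 hcz.symm with h1 | h1
    · exact absurd h1 hc.ne'
    · exact h1
  have h2 := congrArg (T.pt (2 * k)) h1
  rw [T.pt_left, pt_P, map_zero, mul_smul_comm] at h2
  rcases smul_eq_zero.1 h2 with h3 | h3
  · exact absurd (by push_cast at h3; exact h3) hδ
  · exact h3

end Bra

end Pool.Agent.V8H15.BT
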