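import Pool.Agent.V8H15.BT.ERel
import Pool.Agent.V8H40.BT.Alt

/-!
# Bending an antisymmetrized product of pairings
-/

set_option autoImplicit false
set_option linter.unusedSectionVars false

open Equiv Equiv.Perm

namespace Pool.Agent.V8H15.BT

open Pool.Agent.V8H87.GG hiding sg sg_mul sg_one sg_sq sg_swap
open Comb

/-- The partial matching `(0 1)(2 3)...` with `r` arcs. -/
def stdp : ∀ (r m : ℕ), Perm (Fin m)
  | 0, _ => 1
  | _ + 1, 0 => 1
  | _ + 1, 1 => 1
  | r + 1, m + 2 => swap 0 1 * ex (ex (stdp r m))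

lemma stdp_zero (m : ℕ) : stdp 0 m = 1 := by
  rcases m with - | - | m <;> rfl

lemma stdp_succ (r m : ℕ) : stdp (r + 1) (m + 2) = swap 0 1 * ex (ex (stdp r m)) := rfl

lemma stdp_two : ∀ k : ℕ, stdp k (2 * k) = std (2 * k)
  | 0 => rfl
  | k + 1 => by
    have h : 2 * (k + 1) = 2 * k + 2 := rfl
    rw [h, stdp_succ, stdp_two k, std_succ]

variable {A : ℕ → Type*} [∀ n, Ring (A n)] [∀ n, Algebra ℚ (A n)] {E : Type*} [Ring E]
    [Algebra ℚ E] {T : TT A E} {B : Bra T}

lemma swap02_exexex {m : ℕ} (x : Perm (Fin m)) :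
    ex (ex (ex x)) * swap 0 2 = swap 0 2 * ex (ex (ex x)) := by
  refine Bra.comm_swap (ex_zero _) ?_
  have : (2 : Fin (m + 3)) = Fin.succ (Fin.succ 0) := rfl
  rw [this, ex_succ, ex_succ, ex_zero]

lemma swap020102 {m : ℕ} : (swap 0 2 * swap 0 1 * swap 0 2 : Perm (Fin (m + 3))) =
    ex (swap 0 1) := by
  have h01 : (0 : Fin (m + 3)) ≠ 1 := fun h =>
    absurd (show (0 : ℕ) = 1 from congrArg Fin.val h) (by decide)
  have h12 : (1 : Fin (m + 3)) ≠ 2 := fun h =>
    absurd (show (1 : ℕ) = 2 from congrArg Fin.val h) (by decide)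
  have h1 := swap_apply_apply (swap (0 : Fin (m + 3)) 2) 0 1
  rw [swap_apply_left, swap_apply_of_ne_of_ne h01.symm h12, swap_inv] at h1
  rw [← h1, ex_swap, swap_comm]
  rfl

/-- The inclusion moves the arcs, with the effect on the partial matching. -/
lemma ι_F' : ∀ (r m : ℕ), 2 * r ≤ m → ∃ c : Perm (Fin (m + 1)),
    T.ι m (B.F r m) = T.th (m + 1) c * B.F r (m + 1) * T.th (m + 1) c⁻¹ ∧
      ex (stdp r m) = c * stdp r (m + 1) * c⁻¹
  | 0, m, h => ⟨1, by simp, by rw [stdp_zero, stdp_zero, ex_one]; group⟩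
  | r + 1, 0, h => by omega
  | r + 1, 1, h => by omega
  | r + 1, m + 2, h => by
    obtain ⟨c, hc, hc'⟩ := ι_F' r m (by omega)
    refine ⟨swap 0 2 * ex (ex c), ?_, ?_⟩
    · have e1 : (swap 0 2 * ex (ex c) : Perm (Fin (m + 3)))⁻¹ = ex (ex c⁻¹) * swap 0 2 := by
        rw [mul_inv_rev, swap_inv, Bra.ex_inv, Bra.ex_inv]
      rw [e1, Bra.F_succ, Bra.F_succ, map_mul, map_mul, map_mul, T.th_ex, T.th_ex, T.th_ex,
        T.th_ex]
      have e2 : T.ι (m + 2) (B.e m) = Bra.S T m * B.e (m + 1) * Bra.S T m := by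
        rw [B.S_e, mul_assoc, Bra.S_sq, mul_one]
      have e3 : T.th (m + 3) (swap 0 2) = Bra.S T m := rfl
      rw [e2, e3]
      have e4 : T.ι (m + 2) (T.ι (m + 1) (T.ι m (B.F r m))) =
          T.ι (m + 2) (T.ι (m + 1) (T.th (m + 1) c)) *
            T.ι (m + 2) (T.ι (m + 1) (B.F r (m + 1))) *
            T.ι (m + 2) (T.ι (m + 1) (T.th (m + 1) c⁻¹)) := by
        rw [hc]; simp only [map_mul]
      calc Bra.S T m * B.e (m + 1) * Bra.S T m * T.ι (m + 2) (T.ι (m + 1) (T.ι m (B.F r m)))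
          = Bra.S T m * (B.e (m + 1) * T.ι (m + 2) (T.ι (m + 1) (T.ι m (B.F r m)))) *
            Bra.S T m := by
            rw [mul_assoc, Bra.S_comm]; simp only [mul_assoc]
        _ = Bra.S T m * (B.e (m + 1) * T.ι (m + 2) (T.ι (m + 1) (T.th (m + 1) c)) *
            T.ι (m + 2) (T.ι (m + 1) (B.F r (m + 1))) *
            T.ι (m + 2) (T.ι (m + 1) (T.th (m + 1) c⁻¹))) * Bra.S T m := by
            rw [e4]; simp only [mul_assoc]
        _ = _ := by rw [B.e_comm]; simp only [mul_assoc]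
    · have e1 : (swap 0 2 * ex (ex c) : Perm (Fin (m + 3)))⁻¹ = (ex (ex c))⁻¹ * swap 0 2 := by
        rw [mul_inv_rev, swap_inv]
      have e5 : ex (ex c) * (swap 0 1 * ex (ex (stdp r (m + 1)))) * (ex (ex c))⁻¹ =
          swap 0 1 * ex (ex (ex (stdp r m))) := by
        rw [hc', ← mul_assoc, ← swap01_exex, ex_mul, ex_mul, ex_mul, ex_mul, Bra.ex_inv,
          Bra.ex_inv]
        simp only [mul_assoc]
      rw [e1, stdp_succ]
      calc ex (stdp (r + 1) (m + 2)) = ex (swap 0 1) * ex (ex (ex (stdp r m))) := by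
            rw [stdp_succ, ex_mul]
        _ = swap 0 2 * (swap 0 1 * (swap 0 2 * ex (ex (ex (stdp r m))))) := by
            rw [← swap020102]; simp only [mul_assoc]
        _ = swap 0 2 * (swap 0 1 * ex (ex (ex (stdp r m)))) * swap 0 2 := by
            rw [← swap02_exexex]; simp only [mul_assoc]
        _ = _ := by rw [← e5]; simp only [mul_assoc]; rfl

lemma mem_map_iff {m : ℕ} {U : Finset (Fin m)} {ρ : Perm (Fin m)} {i : Fin m} :
    ρ i ∈ U.map ρ.toEmbedding ↔ i ∈ U := by
  rw [Finset.mem_map]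
  constructor
  · rintro ⟨j, hj, hj'⟩
    have : j = i := ρ.injective hj'
    exact this ▸ hj
  · intro hi
    exact ⟨i, hi, rfl⟩

lemma trans_conj {m : ℕ} {y : Perm (Fin m)} {U : Finset (Fin m)} (h : Trans y U)
    (ρ : Perm (Fin m)) : Trans (ρ * y * ρ⁻¹) (U.map ρ.toEmbedding) := by
  intro i
  obtain ⟨j, rfl⟩ : ∃ j, ρ j = i := ρ.surjective i
  have h1 : (ρ * y * ρ⁻¹) (ρ j) = ρ (y j) := by simp [Perm.mul_apply]
  rw [h1, mem_map_iff, mem_map_iff]
  exact ⟨fun h2 => (h j).1 (ρ.injective h2), fun h2 => (h j).2 (fun h3 => h2 (by rw [h3]))⟩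

/-- The induction on the number of arcs. -/
theorem bend_aux : ∀ (r m n : ℕ), n + r = m → 2 * r ≤ m → ∀ U : Finset (Fin m),
    Trans (stdp r m) U → B.F r m * Y T U = 0 → Q T n = 0
  | 0, m, n, h, _, U, hU, h0 => by
    obtain rfl : n = m := h
    have h1 : U = Finset.univ := Finset.eq_univ_iff_forall.2 (fun i =>
      (hU i).1 (by rw [stdp_zero]; rfl))
    rw [h1, Pool.Agent.V8H40.BT.Y_univ, Bra.F_zero, one_mul] at h0
    exact h0
  | r + 1, 0, n, h, h2, _, _, _ => by omega
  | r + 1, 1, n, h, h2, _, _, _ => by omega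
  | r + 1, m + 2, n, h, h2, U, hU, h0 => by
    have key : ∀ U : Finset (Fin (m + 2)), Trans (stdp (r + 1) (m + 2)) U → 0 ∉ U →
        B.F (r + 1) (m + 2) * Y T U = 0 → Q T n = 0 := by
      intro U hU h00 h0
      have hY := Pool.Agent.V8H40.BT.Y_dnU (T := T) h00
      rw [swap_self, ← Perm.one_def, map_one, one_mul, mul_one] at hY
      have hmem : ∀ j : Fin (m + 1), j ∈ Pool.Agent.V8H40.BT.dnU U 0 ↔ j.succ ∈ U := by
        intro j
        rw [Pool.Agent.V8H40.BT.mem_dnU, swap_self]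
        rfl
      set U' := Pool.Agent.V8H40.BT.dnU U 0 with hU'
      have h3 : T.ι m (B.F r m) * Y T U' = 0 := by
        have h4 := congrArg (T.pt (m + 1)) h0
        rw [hY, Bra.F_succ, map_zero, T.pt_right, T.pt_right, B.pt_e, one_mul] at h4
        exact h4
      obtain ⟨c, hc, hc'⟩ := ι_F' (B := B) r m (by omega)
      have h5 : B.F r (m + 1) * Y T (U'.map (c⁻¹).toEmbedding) = 0 := by
        have h6 : B.F r (m + 1) * (T.th (m + 1) c⁻¹ * Y T U') = 0 := by
          have h7 := congrArg (fun z => T.th (m + 1) c⁻¹ * z) h3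
          simp only [mul_zero] at h7
          rw [hc, ← mul_assoc, ← mul_assoc, ← mul_assoc, Bra.th_inv_mul, one_mul,
            mul_assoc] at h7
          exact h7
        rw [th_Y] at h6
        have h8 := congrArg (fun z => z * T.th (m + 1) c) h6
        simp only [zero_mul] at h8
        rw [mul_assoc, mul_assoc, Bra.th_inv_mul, mul_one] at h8
        exact h8
      refine bend_aux r (m + 1) n (by omega) (by omega) _ ?_ h5
      have h9 : Trans (ex (stdp r m)) U' := by
        intro i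
        refine Fin.cases ?_ (fun j => ?_) i
        · rw [ex_zero]
          refine ⟨fun _ => ?_, fun h => absurd rfl h⟩
          rw [hmem]
          have h10 : (stdp (r + 1) (m + 2)) 0 = 1 := by
            rw [stdp_succ, Perm.mul_apply, ex_zero, swap_apply_left]
          have h11 := (hU 0).2 (by rw [h10]; exact one_ne_zero')
          rw [h10] at h11
          by_contra h12
          exact h00 (h11.2 h12)
        · rw [ex_succ, hmem, hmem]
          have h10 : (stdp (r + 1) (m + 2)) j.succ.succ = ((stdp r m) j).succ.succ := by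
            rw [stdp_succ, Perm.mul_apply, ex_succ, ex_succ,
              swap_apply_of_ne_of_ne (succ2_ne_zero _) (succ2_ne_one _)]
          have h11 := hU j.succ.succ
          rw [h10] at h11
          exact ⟨fun h => h11.1 (by rw [h]), fun h => h11.2 (fun h' => h
            (Fin.succ_injective _ h'))⟩
      have h12 := trans_conj h9 c⁻¹
      rw [hc'] at h12
      have h13 : c⁻¹ * (c * stdp r (m + 1) * c⁻¹) * c⁻¹⁻¹ = stdp r (m + 1) := by group
      rwa [h13] at h12
    by_cases h00 : (0 : Fin (m + 2)) ∈ U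
    · have h10 : (stdp (r + 1) (m + 2)) 0 = 1 := by
        rw [stdp_succ, Perm.mul_apply, ex_zero, swap_apply_left]
      have h11 := ((hU 0).2 (by rw [h10]; exact one_ne_zero')).1 h00
      rw [h10] at h11
      refine key (U.map (swap (0 : Fin (m + 2)) 1).toEmbedding) ?_ ?_ ?_
      · have h12 := trans_conj hU (swap 0 1)
        have h13 : (swap 0 1 * stdp (r + 1) (m + 2) * (swap 0 1)⁻¹ : Perm (Fin (m + 2))) =
            stdp (r + 1) (m + 2) := by
          rw [swap_inv, stdp_succ, ← mul_assoc, swap_mul_self, one_mul, ← swap01_exex]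
        rwa [h13] at h12
      · intro h14
        have h15 : swap (0 : Fin (m + 2)) 1 1 ∈ U.map (swap (0 : Fin (m + 2)) 1).toEmbedding := by
          rwa [swap_apply_right]
        exact h11 (mem_map_iff.1 h15)
      · have h12 : B.F (r + 1) (m + 2) * T.th (m + 2) (swap 0 1) = B.F (r + 1) (m + 2) := by
          rw [Bra.F_succ, B.e_comm, mul_assoc, Bra.e_th01]
        have h13 : Y T (U.map (swap (0 : Fin (m + 2)) 1).toEmbedding) =
            T.th (m + 2) (swap 0 1) * Y T U * T.th (m + 2) (swap 0 1) := by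
          rw [th_Y, mul_assoc, ← map_mul, swap_mul_self, map_one, mul_one]
        rw [h13, ← mul_assoc, ← mul_assoc, h12, h0, zero_mul]
    · exact key U hU h00 h0

/-- **Bending.** -/
theorem bend {k : ℕ} {U : Finset (Fin (2 * k))} (hU : Trans (std (2 * k)) U)
    (h : B.G (2 * k) * Y T U = 0) : Q T k = 0 := by
  rw [Bra.G_two] at h
  rw [← stdp_two] at hU
  exact bend_aux k (2 * k) k (by ring) le_rfl U hU h

end Pool.Agent.V8H15.BT
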