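import Pool.Agent.V8H15.BT.Rel

/-!
# Functions on perfect matchings which are eigenfunctions of the sums of transpositions
-/

set_option autoImplicit false
set_option linter.unusedSectionVars false

open Equiv Equiv.Perm

namespace Pool.Agent.V8H15.BT.Comb

open Pool.Agent.V8H15.BT

variable {N : ℕ}

/-- The sums of the transposes of `b` with respect to the transpositions moving a given point are
multiples of `b`. -/
def Eig (c : ℚ) (b : Perm (Fin N) → ℚ) : Prop :=
  ∀ x, IsMatch x → ∀ i, ∑ l, b (swap i l * x * swap i l) = c * b x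

/-- the permutations which move only points of `T` -/
def SS (T : Finset (Fin N)) : Finset (Perm (Fin N)) :=
  Finset.univ.filter (fun σ => ∀ i, i ∉ T → σ i = i)

lemma mem_SS {T : Finset (Fin N)} {σ : Perm (Fin N)} : σ ∈ SS T ↔ ∀ i, i ∉ T → σ i = i := by
  simp [SS]

lemma SS_mul {T : Finset (Fin N)} {σ τ : Perm (Fin N)} (h : σ ∈ SS T) (h' : τ ∈ SS T) :
    σ * τ ∈ SS T := by
  rw [mem_SS] at *
  intro i hi
  rw [Perm.mul_apply, h' i hi, h i hi]

lemma SS_inv {T : Finset (Fin N)} {σ : Perm (Fin N)} (h : σ ∈ SS T) : σ⁻¹ ∈ SS T := by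
  rw [mem_SS] at *
  intro i hi
  rw [Perm.inv_eq_iff_eq, h i hi]

lemma swap_mem_SS {T : Finset (Fin N)} {i j : Fin N} (hi : i ∈ T) (hj : j ∈ T) :
    swap i j ∈ SS T := by
  rw [mem_SS]
  intro k hk
  exact swap_apply_of_ne_of_ne (fun h => hk (h ▸ hi)) (fun h => hk (h ▸ hj))

/-- the sum of the transposes with respect to the permutations of `T` -/
def av (a : Perm (Fin N) → ℚ) (T : Finset (Fin N)) (x : Perm (Fin N)) : ℚ :=
  ∑ σ ∈ SS T, a (σ * x * σ⁻¹)

lemma av_empty (a : Perm (Fin N) → ℚ) (x : Perm (Fin N)) : av a ∅ x = a x := by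
  have : SS (∅ : Finset (Fin N)) = {1} := by
    ext σ
    rw [mem_SS, Finset.mem_singleton]
    constructor
    · intro h
      ext i
      rw [h i (Finset.notMem_empty i), Perm.one_apply]
    · rintro rfl i _
      rfl
  rw [av, this, Finset.sum_singleton, one_mul, inv_one, mul_one]

lemma av_univ (a : Perm (Fin N) → ℚ) (x : Perm (Fin N)) :
    av a Finset.univ x = ∑ σ : Perm (Fin N), a (σ * x * σ⁻¹) := by
  have : SS (Finset.univ : Finset (Fin N)) = Finset.univ := by
    ext σ
    rw [mem_SS]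
    simp
  rw [av, this]

lemma av_inv (a : Perm (Fin N) → ℚ) {T : Finset (Fin N)} {τ : Perm (Fin N)} (h : τ ∈ SS T)
    (x : Perm (Fin N)) : av a T (τ * x * τ⁻¹) = av a T x := by
  rw [av, av]
  refine Finset.sum_bij' (fun σ _ => σ * τ) (fun σ _ => σ * τ⁻¹) (fun σ hσ => SS_mul hσ h)
    (fun σ hσ => SS_mul hσ (SS_inv h)) (fun σ _ => by group) (fun σ _ => by group)
    (fun σ _ => ?_)
  have : σ * (τ * x * τ⁻¹) * σ⁻¹ = (σ * τ) * x * (σ * τ)⁻¹ := by group
  rw [this]

lemma av_eig {c : ℚ} {a : Perm (Fin N) → ℚ} (h : Eig c a) (T : Finset (Fin N)) :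
    Eig c (av a T) := by
  intro x hx i
  unfold av
  rw [Finset.sum_comm, Finset.mul_sum]
  refine Finset.sum_congr rfl (fun σ _ => ?_)
  rw [← h (σ * x * σ⁻¹) (conj_match hx σ) (σ i),
    ← Equiv.sum_comp σ (fun l => a (swap (σ i) l * (σ * x * σ⁻¹) * swap (σ i) l))]
  refine Finset.sum_congr rfl (fun l _ => ?_)
  rw [swap_apply_apply]
  congr 1
  group

lemma swap_conj_aux (σ s x : Perm (Fin N)) (hs : s * s = 1) :
    σ * x * σ⁻¹ = (σ * s) * (s * x * s) * (σ * s)⁻¹ := by
  have h1 : s⁻¹ = s := inv_eq_of_mul_eq_one_right hs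
  calc σ * x * σ⁻¹ = σ * (s * s) * x * (s * s) * σ⁻¹ := by rw [hs]; group
    _ = (σ * s) * (s * x * s) * (s * σ⁻¹) := by simp only [mul_assoc]
    _ = _ := by rw [mul_inv_rev, h1]

lemma av_insert (a : Perm (Fin N) → ℚ) {T : Finset (Fin N)} {v : Fin N} (hv : v ∉ T)
    (x : Perm (Fin N)) :
    av a (insert v T) x = av a T x + ∑ z ∈ T, av a T (swap v z * x * swap v z) := by
  have h : av a (insert v T) x = ∑ z ∈ insert v T, av a T (swap v z * x * swap v z) := by
    unfold av
    rw [← Finset.sum_product']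
    have hmem : ∀ σ ∈ SS (insert v T), σ⁻¹ v ∈ insert v T := by
      intro σ hσ
      by_contra h
      have h1 := mem_SS.1 hσ _ h
      have h2 : σ (σ⁻¹ v) = v := by simp
      rw [h2] at h1
      exact h (by rw [← h1]; exact Finset.mem_insert_self _ _)
    refine Finset.sum_bij' (fun σ _ => (σ⁻¹ v, σ * swap v (σ⁻¹ v)))
      (fun p _ => p.2 * swap v p.1) ?_ ?_ ?_ ?_ ?_
    · intro σ hσ
      rw [Finset.mem_product]
      refine ⟨hmem σ hσ, ?_⟩
      rw [mem_SS]
      intro i hi
      show (σ * swap v (σ⁻¹ v)) i = i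
      rw [Perm.mul_apply]
      by_cases hiv : i = v
      · subst hiv
        rw [swap_apply_left]
        simp
      · have h1 : i ∉ insert v T := by
          rw [Finset.mem_insert, not_or]
          exact ⟨hiv, hi⟩
        rw [swap_apply_of_ne_of_ne hiv (fun h => h1 (h ▸ hmem σ hσ))]
        exact mem_SS.1 hσ i h1
    · rintro ⟨z, τ⟩ hp
      rw [Finset.mem_product] at hp
      obtain ⟨hz, hτ⟩ := hp
      simp only at hz hτ
      rw [mem_SS]
      intro i hi
      show (τ * swap v z) i = i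
      rw [Finset.mem_insert, not_or] at hi
      rw [Perm.mul_apply, swap_apply_of_ne_of_ne hi.1, mem_SS.1 hτ i hi.2]
      rintro rfl
      rcases Finset.mem_insert.1 hz with h1 | h1
      · exact hi.1 h1
      · exact hi.2 h1
    · intro σ _
      show σ * swap v (σ⁻¹ v) * swap v (σ⁻¹ v) = σ
      rw [mul_assoc, swap_mul_self, mul_one]
    · rintro ⟨z, τ⟩ hp
      rw [Finset.mem_product] at hp
      obtain ⟨hz, hτ⟩ := hp
      simp only at hz hτ
      have h1 : (τ * swap v z)⁻¹ v = z := by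
        rw [Perm.inv_eq_iff_eq, Perm.mul_apply, swap_apply_right, mem_SS.1 hτ v hv]
      show ((τ * swap v z)⁻¹ v, τ * swap v z * swap v ((τ * swap v z)⁻¹ v)) = (z, τ)
      rw [h1, mul_assoc, swap_mul_self, mul_one]
    · intro σ _
      show a (σ * x * σ⁻¹) = a (σ * swap v (σ⁻¹ v) * (swap v (σ⁻¹ v) * x * swap v (σ⁻¹ v)) *
        (σ * swap v (σ⁻¹ v))⁻¹)
      rw [← swap_conj_aux _ _ _ (swap_mul_self _ _)]
  rw [h, Finset.sum_insert hv, swap_self, ← Perm.one_def, one_mul, mul_one]

lemma match_apply {x : Perm (Fin N)} (hx : IsMatch x) (i : Fin N) : x (x i) = i := by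
  rw [← Perm.mul_apply, hx.1, Perm.one_apply]

lemma conj_own {x : Perm (Fin N)} (hx : IsMatch x) (p : Fin N) :
    swap (x p) p * x * swap (x p) p = x := by
  rw [mul_assoc, mul_swap_eq_swap_mul, match_apply hx, ← mul_assoc, swap_comm p (x p),
    swap_mul_self, one_mul]

/-- Exchanging a point `x p` with a point `z` has the same effect as exchanging their partners. -/
lemma conj_other {x : Perm (Fin N)} (hx : IsMatch x) {p z : Fin N} (h1 : z ≠ p) (h2 : x p ≠ x z)
    (h3 : x p ≠ p) (h4 : x z ≠ z) :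
    swap (x p) z * x * swap (x p) z = swap p (x z) * x * (swap p (x z))⁻¹ := by
  rw [swap_inv, mul_assoc, mul_swap_eq_swap_mul, mul_assoc, mul_swap_eq_swap_mul, match_apply hx,
    match_apply hx, ← mul_assoc, ← mul_assoc]
  congr 1
  exact comm_swap' h1 h2 h3 h4
where
  comm_swap' {p z : Fin N} (h1 : z ≠ p) (h2 : x p ≠ x z) (h3 : x p ≠ p) (h4 : x z ≠ z) :
      swap (x p) z * swap p (x z) = swap p (x z) * swap (x p) z :=
    Bra.comm_swap (swap_apply_of_ne_of_ne h3.symm h1.symm) (swap_apply_of_ne_of_ne h2.symm h4)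

/-- **The numerical condition.** -/
lemma number {c : ℚ} {b : Perm (Fin N) → ℚ} {T : Finset (Fin N)} (he : Eig c b)
    (hinv : ∀ τ ∈ SS T, ∀ x, b (τ * x * τ⁻¹) = b x)
    (hkill : ∀ v, v ∉ T → ∀ x, IsMatch x → b x + ∑ z ∈ T, b (swap v z * x * swap v z) = 0)
    {x : Perm (Fin N)} (hx : IsMatch x) (hb : b x ≠ 0) :
    (T.card : ℚ) * T.card - (N - T.card) = c * T.card := by
  have h1 : ∑ i ∈ T, ∑ l, b (swap i l * x * swap i l) = T.card * (c * b x) := by
    rw [Finset.sum_congr rfl (fun i _ => he x hx i), Finset.sum_const, nsmul_eq_mul]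
  have h2 : ∀ i ∈ T, ∑ l, b (swap i l * x * swap i l) =
      T.card * b x + ∑ l ∈ Tᶜ, b (swap i l * x * swap i l) := by
    intro i hi
    rw [← Finset.sum_add_sum_compl T]
    congr 1
    rw [← nsmul_eq_mul, ← Finset.sum_const]
    refine Finset.sum_congr rfl (fun l hl => ?_)
    have h3 := hinv _ (swap_mem_SS hi hl) x
    rwa [swap_inv] at h3
  have h3 : ∑ i ∈ T, ∑ l ∈ Tᶜ, b (swap i l * x * swap i l) = - ((N - T.card : ℚ) * b x) := by
    rw [Finset.sum_comm]
    have h4 : ∀ l ∈ Tᶜ, ∑ i ∈ T, b (swap i l * x * swap i l) = - b x := by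
      intro l hl
      have h5 := hkill l (Finset.mem_compl.1 hl) x hx
      simp only [swap_comm _ l]
      linarith
    rw [Finset.sum_congr rfl h4, Finset.sum_const, Finset.card_compl, nsmul_eq_mul,
      Fintype.card_fin, Nat.cast_sub (by simpa using Finset.card_le_univ T)]
    ring
  rw [Finset.sum_congr rfl h2, Finset.sum_add_distrib, h3, Finset.sum_const, nsmul_eq_mul] at h1
  have h4 : ((T.card : ℚ) * T.card - (N - T.card) - c * T.card) * b x = 0 := by linarith
  rcases mul_eq_zero.1 h4 with h5 | h5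
  · linarith
  · exact absurd h5 hb

/-- The number of the arcs which leave `T`. -/
def cr (T : Finset (Fin N)) (x : Perm (Fin N)) : ℕ := (T.filter (fun i => x i ∉ T)).card

lemma preserves {b : Perm (Fin N) → ℚ} {T : Finset (Fin N)}
    (hinv : ∀ τ ∈ SS T, ∀ x, b (τ * x * τ⁻¹) = b x)
    (hkill : ∀ v, v ∉ T → ∀ x, IsMatch x → b x + ∑ z ∈ T, b (swap v z * x * swap v z) = 0)
    {x : Perm (Fin N)} (hx : IsMatch x) (hb : b x ≠ 0)
    (hmin : ∀ y, IsMatch y → b y ≠ 0 → cr T x ≤ cr T y) : ∀ p ∈ T, x p ∈ T := by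
  intro p hp
  by_contra hv
  have h1 := hkill (x p) hv x hx
  have h2 : ∀ z ∈ T, b (swap (x p) z * x * swap (x p) z) =
      (if x z ∈ T ∨ z = p then 1 else 0) * b x := by
    intro z hz
    by_cases hzp : z = p
    · subst hzp
      rw [conj_own hx, if_pos (Or.inr rfl), one_mul]
    · by_cases hxz : x z ∈ T
      · rw [if_pos (Or.inl hxz), one_mul, conj_other hx hzp (fun h => hv (by rw [h]; exact hxz)) (hx.2 p)
          (hx.2 z), hinv _ (swap_mem_SS hp hxz)]
      · rw [if_neg (by rw [not_or]; exact ⟨hxz, hzp⟩), zero_mul]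
        by_contra hne
        have hm : IsMatch (swap (x p) z * x * swap (x p) z) := by
          have := conj_match hx (swap (x p) z)
          rwa [swap_inv] at this
        have h3 := hmin _ hm hne
        have hxpz : x p ≠ z := fun h => hv (h ▸ hz)
        have hpp : (swap (x p) z * x * swap (x p) z) p = z := by
          rw [Perm.mul_apply, Perm.mul_apply, swap_apply_of_ne_of_ne (hx.2 p).symm (Ne.symm hzp),
            swap_apply_left]
        have h4 : (T.filter (fun i => (swap (x p) z * x * swap (x p) z) i ∉ T)) ⊂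
            T.filter (fun i => x i ∉ T) := by
          rw [Finset.ssubset_iff_of_subset]
          · refine ⟨p, Finset.mem_filter.2 ⟨hp, hv⟩, fun h => ?_⟩
            exact (Finset.mem_filter.1 h).2 (by rw [hpp]; exact hz)
          · intro i hi
            obtain ⟨hiT, hi⟩ := Finset.mem_filter.1 hi
            refine Finset.mem_filter.2 ⟨hiT, fun hxi => hi ?_⟩
            by_cases hiz : i = z
            · subst hiz
              exact absurd hxi hxz
            · rw [Perm.mul_apply, Perm.mul_apply,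
                swap_apply_of_ne_of_ne (show i ≠ x p from fun h => hv (h ▸ hiT)) hiz]
              by_cases hh : x i = z
              · have : x z = i := by rw [← hh, match_apply hx]
                exact absurd (this ▸ hiT) hxz
              · by_cases hh' : x i = x p
                · rw [hh', swap_apply_left]
                  exact hz
                · rwa [swap_apply_of_ne_of_ne hh' hh]
        have h5 := Finset.card_lt_card h4
        rw [cr, cr] at h3
        omega
  rw [Finset.sum_congr rfl h2, ← Finset.sum_mul] at h1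
  have h3 : (0 : ℚ) ≤ ∑ z ∈ T, (if x z ∈ T ∨ z = p then 1 else 0) :=
    Finset.sum_nonneg (fun z _ => by split_ifs <;> norm_num)
  have h4 : (1 + ∑ z ∈ T, (if x z ∈ T ∨ z = p then (1 : ℚ) else 0)) * b x = 0 := by
    linarith
  rcases mul_eq_zero.1 h4 with h5 | h5
  · linarith
  · exact hb h5

lemma even_of_preserves {T : Finset (Fin N)} {x : Perm (Fin N)} (hx : IsMatch x)
    (h : ∀ p ∈ T, x p ∈ T) : Even T.card := by
  have h1 : ∑ i ∈ T, (1 : ZMod 2) = 0 := by
    refine Finset.sum_involution (fun i _ => x i) (fun i _ => by decide) (fun i _ _ => hx.2 i)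
      (fun i hi => h i hi) (fun i _ => match_apply hx i)
  rw [Finset.sum_const, nsmul_eq_mul, mul_one] at h1
  exact (ZMod.natCast_eq_zero_iff_even).1 h1

/-- **Eigenfunctions with eigenvalue `2 n + 2` on the matchings of fewer than `6 (n + 2)` points
have non-zero mean.** -/
theorem mean_ne_zero {n : ℕ} (hN : N < 6 * (n + 2)) {a : Perm (Fin N) → ℚ}
    (ha : Eig (2 * n + 2) a) {x0 : Perm (Fin N)} (hx0 : IsMatch x0) (h0 : a x0 ≠ 0) :
    ∃ x : Perm (Fin N), IsMatch x ∧ ∑ σ : Perm (Fin N), a (σ * x * σ⁻¹) ≠ 0 := by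
  classical
  obtain ⟨T, hT, hmax⟩ : ∃ T : Finset (Fin N), (∃ x, IsMatch x ∧ av a T x ≠ 0) ∧
      ∀ T' : Finset (Fin N), (∃ x, IsMatch x ∧ av a T' x ≠ 0) → T'.card ≤ T.card := by
    obtain ⟨T, hT, hmax⟩ := Finset.exists_max_image
      (Finset.univ.filter (fun T : Finset (Fin N) => ∃ x, IsMatch x ∧ av a T x ≠ 0))
      Finset.card ⟨∅, Finset.mem_filter.2 ⟨Finset.mem_univ _, x0, hx0, by
        rw [av_empty]; exact h0⟩⟩
    exact ⟨T, (Finset.mem_filter.1 hT).2,
      fun T' hT' => hmax T' (Finset.mem_filter.2 ⟨Finset.mem_univ _, hT'⟩)⟩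
  by_cases hTu : T = Finset.univ
  · subst hTu
    obtain ⟨x, hx, h⟩ := hT
    exact ⟨x, hx, by rwa [av_univ] at h⟩
  exfalso
  have hcard : T.card < N := by
    obtain ⟨v, hv⟩ : ∃ i, i ∉ T := by
      by_contra hh
      exact hTu (Finset.eq_univ_iff_forall.2 (fun i => by
        by_contra hi
        exact hh ⟨i, hi⟩))
    have := Finset.card_lt_univ_of_notMem hv
    simpa using this
  have hkill : ∀ v, v ∉ T → ∀ x, IsMatch x →
      av a T x + ∑ z ∈ T, av a T (swap v z * x * swap v z) = 0 := by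
    intro v hv x hx
    rw [← av_insert a hv]
    by_contra h
    have := hmax (insert v T) ⟨x, hx, h⟩
    rw [Finset.card_insert_of_notMem hv] at this
    omega
  have hinv : ∀ τ ∈ SS T, ∀ x, av a T (τ * x * τ⁻¹) = av a T x := fun τ hτ x => av_inv a hτ x
  obtain ⟨x, ⟨hx, hbx⟩, hmin⟩ : ∃ x, (IsMatch x ∧ av a T x ≠ 0) ∧
      ∀ y, IsMatch y → av a T y ≠ 0 → cr T x ≤ cr T y := by
    obtain ⟨x, hx, hmin⟩ := Finset.exists_min_image
      (Finset.univ.filter (fun x : Perm (Fin N) => IsMatch x ∧ av a T x ≠ 0)) (cr T) (by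
        obtain ⟨x, hx⟩ := hT
        exact ⟨x, Finset.mem_filter.2 ⟨Finset.mem_univ _, hx⟩⟩)
    exact ⟨x, (Finset.mem_filter.1 hx).2,
      fun y hy hy' => hmin y (Finset.mem_filter.2 ⟨Finset.mem_univ _, hy, hy'⟩)⟩
  have heven := even_of_preserves hx (preserves hinv hkill hx hbx hmin)
  have hnum := number (av_eig ha T) hinv hkill hx hbx
  obtain ⟨s, hs⟩ := heven
  have h1 : (T.card : ℤ) * T.card - (N - T.card) = (2 * n + 2) * T.card := by
    exact_mod_cast hnum
  rw [hs] at h1 hcard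
  push_cast at h1
  have h2 : (N : ℤ) = 2 * s * (2 * s - 2 * n - 1) := by linarith
  rcases Nat.lt_or_ge s (n + 1) with h3 | h3
  · have h4 : (2 * (s : ℤ) - 2 * n - 1) ≤ 0 := by
      have : (s : ℤ) < n + 1 := by exact_mod_cast h3
      linarith
    have h5 : (N : ℤ) ≤ 0 := by
      rw [h2]
      exact mul_nonpos_of_nonneg_of_nonpos (by positivity) h4
    have : (0 : ℤ) < N := by exact_mod_cast lt_of_le_of_lt (Nat.zero_le _) hcard
    linarith
  · rcases Nat.eq_or_lt_of_le h3 with h4 | h4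
    · have h5 : (s : ℤ) = n + 1 := by exact_mod_cast h4.symm
      have h6 : (N : ℤ) = s + s := by rw [h2, h5]; ring
      have h7 : N = s + s := by exact_mod_cast h6
      omega
    · have h5 : (n : ℤ) + 2 ≤ s := by exact_mod_cast h4
      have h6 : (N : ℤ) < 6 * (n + 2) := by exact_mod_cast hN
      nlinarith
end Pool.Agent.V8H15.BT.Comb
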