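import Pool.Agent.V8H15.BT.EDefs

/-!
# Eigenfunctions on matchings: the antisymmetric case
-/

set_option autoImplicit false
set_option linter.unusedSectionVars false

open Equiv Equiv.Perm

namespace Pool.Agent.V8H15.BT.Comb

open Pool.Agent.V8H15.BT

variable {N : ℕ}

/-- the alternating sum of the transposes with respect to the permutations of `U` -/
def alt (a : Perm (Fin N) → ℚ) (U : Finset (Fin N)) (x : Perm (Fin N)) : ℚ :=
  ∑ σ ∈ SS U, sg σ * a (σ * x * σ⁻¹)

lemma alt_empty (a : Perm (Fin N) → ℚ) (x : Perm (Fin N)) : alt a ∅ x = a x := by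
  have : SS (∅ : Finset (Fin N)) = {1} := by
    ext σ
    rw [mem_SS, Finset.mem_singleton]
    constructor
    · intro h
      ext i
      rw [h i (Finset.notMem_empty i), Perm.one_apply]
    · rintro rfl i _
      rfl
  rw [alt, this, Finset.sum_singleton, sg_one, one_mul, one_mul, inv_one, mul_one]

lemma alt_inv (a : Perm (Fin N) → ℚ) {U : Finset (Fin N)} {τ : Perm (Fin N)} (h : τ ∈ SS U)
    (x : Perm (Fin N)) : alt a U (τ * x * τ⁻¹) = sg τ * alt a U x := by
  rw [alt, alt, Finset.mul_sum]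
  refine Finset.sum_bij' (fun σ _ => σ * τ) (fun σ _ => σ * τ⁻¹) (fun σ hσ => SS_mul hσ h)
    (fun σ hσ => SS_mul hσ (SS_inv h)) (fun σ _ => by group) (fun σ _ => by group)
    (fun σ _ => ?_)
  have h1 : σ * (τ * x * τ⁻¹) * σ⁻¹ = (σ * τ) * x * (σ * τ)⁻¹ := by group
  have h2 : sg τ * (sg σ * sg τ * a ((σ * τ) * x * (σ * τ)⁻¹)) =
      (sg τ * sg τ) * (sg σ * a ((σ * τ) * x * (σ * τ)⁻¹)) := by ring
  rw [h1, sg_mul, h2, sg_sq, one_mul]

lemma alt_eig {c : ℚ} {a : Perm (Fin N) → ℚ} (h : Eig c a) (U : Finset (Fin N)) :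
    Eig c (alt a U) := by
  intro x hx i
  unfold alt
  rw [Finset.sum_comm, Finset.mul_sum]
  refine Finset.sum_congr rfl (fun σ _ => ?_)
  rw [← Finset.mul_sum]
  have h1 := h (σ * x * σ⁻¹) (conj_match hx σ) (σ i)
  rw [← Equiv.sum_comp σ (fun l => a (swap (σ i) l * (σ * x * σ⁻¹) * swap (σ i) l))] at h1
  have h2 : ∑ l, a (σ * (swap i l * x * swap i l) * σ⁻¹) = c * a (σ * x * σ⁻¹) := by
    rw [← h1]
    refine Finset.sum_congr rfl (fun l _ => ?_)
    rw [swap_apply_apply]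
    congr 1
    group
  rw [h2]
  ring

lemma alt_insert (a : Perm (Fin N) → ℚ) {U : Finset (Fin N)} {v : Fin N} (hv : v ∉ U)
    (x : Perm (Fin N)) :
    alt a (insert v U) x = alt a U x - ∑ z ∈ U, alt a U (swap v z * x * swap v z) := by
  have h : alt a (insert v U) x = ∑ z ∈ insert v U,
      sg (swap v z) * alt a U (swap v z * x * swap v z) := by
    unfold alt
    simp only [Finset.mul_sum]
    rw [← Finset.sum_product']
    have hmem : ∀ σ ∈ SS (insert v U), σ⁻¹ v ∈ insert v U := by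
      intro σ hσ
      by_contra h
      have h1 := mem_SS.1 hσ _ h
      have h2 : σ (σ⁻¹ v) = v := by simp
      rw [h2] at h1
      exact h (by rw [← h1]; exact Finset.mem_insert_self _ _)
    refine Finset.sum_bij' (fun σ _ => (σ⁻¹ v, σ * swap v (σ⁻¹ v)))
      (fun p _ => p.2 * swap v p.1) ?_ ?_ ?_ ?_ ?_
    · intro σ hσ
      rw [Finset.mem_product]
      refine ⟨hmem σ hσ, ?_⟩
      rw [mem_SS]
      intro i hi
      show (σ * swap v (σ⁻¹ v)) i = i
      rw [Perm.mul_apply]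
      by_cases hiv : i = v
      · subst hiv
        rw [swap_apply_left]
        simp
      · have h1 : i ∉ insert v U := by
          rw [Finset.mem_insert, not_or]
          exact ⟨hiv, hi⟩
        rw [swap_apply_of_ne_of_ne hiv (fun h => h1 (h ▸ hmem σ hσ))]
        exact mem_SS.1 hσ i h1
    · rintro ⟨z, τ⟩ hp
      rw [Finset.mem_product] at hp
      obtain ⟨hz, hτ⟩ := hp
      simp only at hz hτ
      rw [mem_SS]
      intro i hi
      show (τ * swap v z) i = i
      rw [Finset.mem_insert, not_or] at hi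
      rw [Perm.mul_apply, swap_apply_of_ne_of_ne hi.1, mem_SS.1 hτ i hi.2]
      rintro rfl
      rcases Finset.mem_insert.1 hz with h1 | h1
      · exact hi.1 h1
      · exact hi.2 h1
    · intro σ _
      show σ * swap v (σ⁻¹ v) * swap v (σ⁻¹ v) = σ
      rw [mul_assoc, swap_mul_self, mul_one]
    · rintro ⟨z, τ⟩ hp
      rw [Finset.mem_product] at hp
      obtain ⟨hz, hτ⟩ := hp
      simp only at hz hτ
      have h1 : (τ * swap v z)⁻¹ v = z := by
        rw [Perm.inv_eq_iff_eq, Perm.mul_apply, swap_apply_right, mem_SS.1 hτ v hv]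
      show ((τ * swap v z)⁻¹ v, τ * swap v z * swap v ((τ * swap v z)⁻¹ v)) = (z, τ)
      rw [h1, mul_assoc, swap_mul_self, mul_one]
    · intro σ _
      show sg σ * a (σ * x * σ⁻¹) = sg (swap v (σ⁻¹ v)) * (sg (σ * swap v (σ⁻¹ v)) *
        a (σ * swap v (σ⁻¹ v) * (swap v (σ⁻¹ v) * x * swap v (σ⁻¹ v)) *
        (σ * swap v (σ⁻¹ v))⁻¹))
      rw [← swap_conj_aux _ _ _ (swap_mul_self _ _), sg_mul]
      have h2 := sg_sq (swap v (σ⁻¹ v))
      calc sg σ * a (σ * x * σ⁻¹) = (sg (swap v (σ⁻¹ v)) * sg (swap v (σ⁻¹ v))) *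
            (sg σ * a (σ * x * σ⁻¹)) := by rw [h2, one_mul]
        _ = _ := by ring
  have h3 : ∀ z ∈ U, sg (swap v z) * alt a U (swap v z * x * swap v z) =
      - alt a U (swap v z * x * swap v z) := by
    intro z hz
    rw [sg_swap (show v ≠ z from fun h => hv (h ▸ hz)), neg_one_mul]
  rw [h, Finset.sum_insert hv, Finset.sum_congr rfl h3, Finset.sum_neg_distrib, swap_self,
    ← Perm.one_def, one_mul, mul_one, sg_one, one_mul, sub_eq_add_neg]

/-- A matching with a nonvanishing alternating sum has no arcs inside `U`. -/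
lemma alt_cross {a : Perm (Fin N) → ℚ} {U : Finset (Fin N)} {x : Perm (Fin N)} (hx : IsMatch x)
    (h : alt a U x ≠ 0) {i : Fin N} (hi : i ∈ U) : x i ∉ U := by
  intro hxi
  have h1 := alt_inv a (swap_mem_SS hxi hi) x
  rw [swap_inv, conj_own hx, sg_swap (hx.2 i)] at h1
  exact h (by linarith)

lemma number_alt {c : ℚ} {b : Perm (Fin N) → ℚ} {U : Finset (Fin N)} (he : Eig c b)
    (hinv : ∀ τ ∈ SS U, ∀ x, b (τ * x * τ⁻¹) = sg τ * b x)
    (hkill : ∀ v, v ∉ U → ∀ x, IsMatch x → b x - ∑ z ∈ U, b (swap v z * x * swap v z) = 0)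
    {x : Perm (Fin N)} (hx : IsMatch x) (hb : b x ≠ 0) :
    (U.card : ℚ) * (2 - U.card) + (N - U.card) = c * U.card := by
  have h1 : ∑ i ∈ U, ∑ l, b (swap i l * x * swap i l) = U.card * (c * b x) := by
    rw [Finset.sum_congr rfl (fun i _ => he x hx i), Finset.sum_const, nsmul_eq_mul]
  have h2 : ∀ i ∈ U, ∑ l, b (swap i l * x * swap i l) =
      (2 - U.card) * b x + ∑ l ∈ Uᶜ, b (swap i l * x * swap i l) := by
    intro i hi
    rw [← Finset.sum_add_sum_compl U]
    congr 1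
    rw [← Finset.add_sum_erase U _ hi]
    have h3 : ∀ l ∈ U.erase i, b (swap i l * x * swap i l) = - b x := by
      intro l hl
      have h4 := hinv _ (swap_mem_SS hi (Finset.mem_of_mem_erase hl)) x
      rwa [swap_inv, sg_swap (Finset.ne_of_mem_erase hl).symm, neg_one_mul] at h4
    rw [Finset.sum_congr rfl h3, Finset.sum_const, Finset.card_erase_of_mem hi, nsmul_eq_mul,
      swap_self, ← Perm.one_def, one_mul, mul_one,
      Nat.cast_sub (Finset.card_pos.2 ⟨i, hi⟩)]
    push_cast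
    ring
  have h3 : ∑ i ∈ U, ∑ l ∈ Uᶜ, b (swap i l * x * swap i l) = (N - U.card : ℚ) * b x := by
    rw [Finset.sum_comm]
    have h4 : ∀ l ∈ Uᶜ, ∑ i ∈ U, b (swap i l * x * swap i l) = b x := by
      intro l hl
      have h5 := hkill l (Finset.mem_compl.1 hl) x hx
      simp only [swap_comm _ l]
      linarith
    rw [Finset.sum_congr rfl h4, Finset.sum_const, Finset.card_compl, nsmul_eq_mul,
      Fintype.card_fin, Nat.cast_sub (by simpa using Finset.card_le_univ U)]
  rw [Finset.sum_congr rfl h2, Finset.sum_add_distrib, h3, Finset.sum_const, nsmul_eq_mul] at h1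
  have h4 : ((U.card : ℚ) * (2 - U.card) + (N - U.card) - c * U.card) * b x = 0 := by linarith
  rcases mul_eq_zero.1 h4 with h5 | h5
  · linarith
  · exact absurd h5 hb

/-- The numerical condition from the symmetric sums. -/
lemma row_number {c : ℚ} {a : Perm (Fin N) → ℚ} (ha : Eig c a) {x0 : Perm (Fin N)}
    (hx0 : IsMatch x0) (h0 : a x0 ≠ 0) :
    ∃ t : ℕ, Even t ∧ (t : ℚ) * t - (N - t) = c * t := by
  classical
  obtain ⟨T, hT, hmax⟩ : ∃ T : Finset (Fin N), (∃ x, IsMatch x ∧ av a T x ≠ 0) ∧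
      ∀ T' : Finset (Fin N), (∃ x, IsMatch x ∧ av a T' x ≠ 0) → T'.card ≤ T.card := by
    obtain ⟨T, hT, hmax⟩ := Finset.exists_max_image
      (Finset.univ.filter (fun T : Finset (Fin N) => ∃ x, IsMatch x ∧ av a T x ≠ 0))
      Finset.card ⟨∅, Finset.mem_filter.2 ⟨Finset.mem_univ _, x0, hx0, by
        rw [av_empty]; exact h0⟩⟩
    exact ⟨T, (Finset.mem_filter.1 hT).2,
      fun T' hT' => hmax T' (Finset.mem_filter.2 ⟨Finset.mem_univ _, hT'⟩)⟩
  have hkill : ∀ v, v ∉ T → ∀ x, IsMatch x →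
      av a T x + ∑ z ∈ T, av a T (swap v z * x * swap v z) = 0 := by
    intro v hv x hx
    rw [← av_insert a hv]
    by_contra h
    have := hmax (insert v T) ⟨x, hx, h⟩
    rw [Finset.card_insert_of_notMem hv] at this
    omega
  have hinv : ∀ τ ∈ SS T, ∀ x, av a T (τ * x * τ⁻¹) = av a T x := fun τ hτ x => av_inv a hτ x
  obtain ⟨x, ⟨hx, hbx⟩, hmin⟩ : ∃ x, (IsMatch x ∧ av a T x ≠ 0) ∧
      ∀ y, IsMatch y → av a T y ≠ 0 → cr T x ≤ cr T y := by
    obtain ⟨x, hx, hmin⟩ := Finset.exists_min_image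
      (Finset.univ.filter (fun x : Perm (Fin N) => IsMatch x ∧ av a T x ≠ 0)) (cr T) (by
        obtain ⟨x, hx⟩ := hT
        exact ⟨x, Finset.mem_filter.2 ⟨Finset.mem_univ _, hx⟩⟩)
    exact ⟨x, (Finset.mem_filter.1 hx).2,
      fun y hy hy' => hmin y (Finset.mem_filter.2 ⟨Finset.mem_univ _, hy, hy'⟩)⟩
  exact ⟨T.card, even_of_preserves hx (preserves hinv hkill hx hbx hmin),
    number (av_eig ha T) hinv hkill hx hbx⟩

/-- The numerical condition from the alternating sums. -/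
lemma col_number {c : ℚ} {a : Perm (Fin N) → ℚ} (ha : Eig c a) {x0 : Perm (Fin N)}
    (hx0 : IsMatch x0) (h0 : a x0 ≠ 0) :
    ∃ (U : Finset (Fin N)) (x : Perm (Fin N)), IsMatch x ∧ alt a U x ≠ 0 ∧
      (U.card : ℚ) * (2 - U.card) + (N - U.card) = c * U.card := by
  classical
  obtain ⟨U, hU, hmax⟩ : ∃ U : Finset (Fin N), (∃ x, IsMatch x ∧ alt a U x ≠ 0) ∧
      ∀ U' : Finset (Fin N), (∃ x, IsMatch x ∧ alt a U' x ≠ 0) → U'.card ≤ U.card := by
    obtain ⟨U, hU, hmax⟩ := Finset.exists_max_image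
      (Finset.univ.filter (fun U : Finset (Fin N) => ∃ x, IsMatch x ∧ alt a U x ≠ 0))
      Finset.card ⟨∅, Finset.mem_filter.2 ⟨Finset.mem_univ _, x0, hx0, by
        rw [alt_empty]; exact h0⟩⟩
    exact ⟨U, (Finset.mem_filter.1 hU).2,
      fun U' hU' => hmax U' (Finset.mem_filter.2 ⟨Finset.mem_univ _, hU'⟩)⟩
  have hkill : ∀ v, v ∉ U → ∀ x, IsMatch x →
      alt a U x - ∑ z ∈ U, alt a U (swap v z * x * swap v z) = 0 := by
    intro v hv x hx
    rw [← alt_insert a hv]
    by_contra h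
    have := hmax (insert v U) ⟨x, hx, h⟩
    rw [Finset.card_insert_of_notMem hv] at this
    omega
  obtain ⟨x, hx, hbx⟩ := hU
  exact ⟨U, x, hx, hbx, number_alt (alt_eig ha U) (fun τ hτ x => alt_inv a hτ x) hkill hx hbx⟩

/-- **Eigenfunctions with eigenvalue `2 - b` on the matchings of fewer than `4 (b + 3)` points.** -/
theorem alt_ne_zero {b : ℕ} (hN0 : 0 < N) (hN : N < 4 * (b + 3)) {a : Perm (Fin N) → ℚ}
    (ha : Eig (2 - b) a) {x0 : Perm (Fin N)} (hx0 : IsMatch x0) (h0 : a x0 ≠ 0) :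
    ∃ (U : Finset (Fin N)) (x : Perm (Fin N)), IsMatch x ∧ alt a U x ≠ 0 ∧ 2 * U.card = N := by
  obtain ⟨t, ⟨s, hs⟩, ht⟩ := row_number ha hx0 h0
  obtain ⟨U, x, hx, hax, hu⟩ := col_number ha hx0 h0
  refine ⟨U, x, hx, hax, ?_⟩
  have h1 : (N : ℤ) = t * (t - 1 + b) := by
    have : (N : ℚ) = t * (t - 1 + b) := by linarith
    exact_mod_cast this
  have h2 : (N : ℤ) = U.card * (U.card + 1 - b) := by
    have : (N : ℚ) = U.card * (U.card + 1 - b) := by linarith
    exact_mod_cast this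
  have hN0' : (0 : ℤ) < N := by exact_mod_cast hN0
  have hN' : (N : ℤ) < 4 * (b + 3) := by exact_mod_cast hN
  have hb : (0 : ℤ) ≤ b := by positivity
  rw [hs] at h1
  push_cast at h1
  have h3 : s = 1 := by
    rcases Nat.lt_or_ge s 1 with h4 | h4
    · have : s = 0 := by omega
      subst this
      simp at h1
      omega
    · rcases Nat.eq_or_lt_of_le h4 with h5 | h5
      · exact h5.symm
      · exfalso
        have h6 : (2 : ℤ) ≤ s := by exact_mod_cast h5
        nlinarith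
  subst h3
  have h4 : (N : ℤ) = 2 * (b + 1) := by
    rw [h1]
    push_cast
    ring
  have h5 : ((U.card : ℤ) - (b + 1)) * (U.card + 2) = 0 := by
    have : (U.card : ℤ) * (U.card + 1 - b) = 2 * (b + 1) := by rw [← h2, h4]
    linarith
  have h6 : (0 : ℤ) ≤ U.card := by positivity
  rcases mul_eq_zero.1 h5 with h7 | h7
  · have : (2 * U.card : ℤ) = N := by rw [h4]; linarith
    exact_mod_cast this
  · omega

end Pool.Agent.V8H15.BT.Comb
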