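import Pool.Agent.V8H15.BT.EComb

/-!
# From an alternating relation to an antisymmetrized product of pairings
-/

set_option autoImplicit false
set_option linter.unusedSectionVars false

open Equiv Equiv.Perm

namespace Pool.Agent.V8H15.BT

open Pool.Agent.V8H87.GG Comb

variable {A : ℕ → Type*} [∀ n, Ring (A n)] [∀ n, Algebra ℚ (A n)] {E : Type*} [Ring E]
    [Algebra ℚ E] {T : TT A E} {B : Bra T}

lemma th_Y_mem {m : ℕ} {U : Finset (Fin m)} {σ : Perm (Fin m)} (h : σ ∈ SS U) :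
    T.th m σ * Y T U = sg σ • Y T U := by
  rw [Y, Finset.mul_sum, Finset.smul_sum]
  refine Finset.sum_bij' (fun τ _ => σ * τ) (fun τ _ => σ⁻¹ * τ) (fun τ hτ => SS_mul h hτ)
    (fun τ hτ => SS_mul (SS_inv h) hτ) (fun τ _ => by group) (fun τ _ => by group)
    (fun τ _ => ?_)
  rw [mul_smul_comm, ← map_mul, smul_smul, sg_mul, ← mul_assoc, sg_sq, one_mul]

lemma conj_SS {m : ℕ} {U : Finset (Fin m)} {σ ρ : Perm (Fin m)} :
    ρ * σ * ρ⁻¹ ∈ SS (U.map ρ.toEmbedding) ↔ σ ∈ SS U := by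
  rw [mem_SS, mem_SS]
  constructor
  · intro h i hi
    have h1 := h (ρ i) (fun h2 => by
      obtain ⟨j, hj, hj'⟩ := Finset.mem_map.1 h2
      have : j = i := ρ.injective hj'
      exact hi (this ▸ hj))
    simpa [Perm.mul_apply] using h1
  · intro h i hi
    have h1 := h (ρ⁻¹ i) (fun h2 => hi (Finset.mem_map.2 ⟨ρ⁻¹ i, h2, by simp⟩))
    rw [Perm.mul_apply, Perm.mul_apply, h1]
    simp

/-- Conjugating the antisymmetrizer. -/
lemma th_Y {m : ℕ} (U : Finset (Fin m)) (ρ : Perm (Fin m)) :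
    T.th m ρ * Y T U = Y T (U.map ρ.toEmbedding) * T.th m ρ := by
  rw [Y, Y, Finset.mul_sum, Finset.sum_mul]
  refine Finset.sum_bij' (fun τ _ => ρ * τ * ρ⁻¹) (fun τ _ => ρ⁻¹ * τ * ρ)
    (fun τ hτ => conj_SS.2 hτ) (fun τ hτ => ?_) (fun τ _ => by group) (fun τ _ => by group)
    (fun τ _ => ?_)
  · have h1 : ρ * (ρ⁻¹ * τ * ρ) * ρ⁻¹ = τ := by group
    exact conj_SS.1 (by rw [h1]; exact hτ)
  · have h1 : sg (ρ * τ * ρ⁻¹) = sg τ := by
      rw [sg_mul, sg_mul, sg_inv]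
      calc sg ρ * sg τ * sg ρ = (sg ρ * sg ρ) * sg τ := by ring
        _ = sg τ := by rw [sg_sq, one_mul]
    rw [mul_smul_comm, smul_mul_assoc, ← map_mul, ← map_mul, inv_mul_cancel_right, h1]

/-- The matchings without arcs inside `U`, for `U` half of the points, are conjugate under the
permutations of `U`. -/
lemma exists_SS {m : ℕ} {U : Finset (Fin m)} {x y : Perm (Fin m)} (hx : IsMatch x)
    (hy : IsMatch y) (hxU : ∀ i, i ∈ U ↔ x i ∉ U) (hyU : ∀ i, i ∈ U ↔ y i ∉ U) :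
    ∃ σ ∈ SS U, x = σ * y * σ⁻¹ := by
  classical
  have hmap : ∀ i, i ∈ U ↔ (x * y) i ∈ U := by
    intro i
    have e1 := hyU i
    have e2 := hxU (y i)
    rw [Perm.mul_apply]
    tauto
  let σ : Perm (Fin m) := Perm.ofSubtype ((x * y).subtypePerm (p := fun i => i ∈ U)
    (fun i => (hmap i).symm))
  have h1 : ∀ i, i ∈ U → σ i = x (y i) := by
    intro i hi
    show Perm.ofSubtype _ i = _
    rw [Perm.ofSubtype_apply_of_mem _ hi]
    rfl
  have h2 : ∀ i, i ∉ U → σ i = i := by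
    intro i hi
    exact Perm.ofSubtype_apply_of_not_mem _ hi
  refine ⟨σ, mem_SS.2 h2, ?_⟩
  have h3 : x * σ = σ * y := by
    ext i
    congr 1
    rw [Perm.mul_apply, Perm.mul_apply]
    by_cases hi : i ∈ U
    · rw [h1 i hi, match_apply hx, h2 _ ((hyU i).1 hi)]
    · have h4 : y i ∈ U := by
        by_contra h5
        exact hi ((hyU i).2 h5)
      rw [h2 i hi, h1 _ h4, match_apply hy]
  rw [← h3, mul_assoc, mul_inv_cancel, mul_one]

lemma cross_iff {m : ℕ} {U : Finset (Fin m)} {x : Perm (Fin m)} (_hx : IsMatch x)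
    (hU : 2 * U.card = m) (h : ∀ i ∈ U, x i ∉ U) : ∀ i, i ∈ U ↔ x i ∉ U := by
  intro i
  refine ⟨h i, fun hxi => ?_⟩
  have h1 : U.map x.toEmbedding ⊆ Uᶜ := by
    intro j hj
    obtain ⟨l, hl, rfl⟩ := Finset.mem_map.1 hj
    exact Finset.mem_compl.2 (h l hl)
  have h2 : U.map x.toEmbedding = Uᶜ := by
    refine Finset.eq_of_subset_of_card_le h1 ?_
    rw [Finset.card_compl, Finset.card_map, Fintype.card_fin]
    omega
  have h3 : x i ∈ U.map x.toEmbedding := by
    rw [h2]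
    exact Finset.mem_compl.2 hxi
  obtain ⟨l, hl, hl'⟩ := Finset.mem_map.1 h3
  have : l = i := x.injective hl'
  exact this ▸ hl

lemma rel_smul {m : ℕ} {a : Perm (Fin m) → ℚ} (c : ℚ) (h : B.Rel m a) :
    B.Rel m (fun x => c * a x) := by
  rw [Bra.Rel] at *
  simp only [mul_smul]
  rw [← Finset.smul_sum, h, smul_zero]

/-- **From an alternating relation to an antisymmetrized product of pairings.** -/
theorem alt_rel {k : ℕ} {a : Perm (Fin (2 * k)) → ℚ} (h : B.Rel (2 * k) a)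
    {U : Finset (Fin (2 * k))} {x : Perm (Fin (2 * k))} (hx : IsMatch x)
    (hU : 2 * U.card = 2 * k) (hne : alt a U x ≠ 0) :
    ∃ U' : Finset (Fin (2 * k)), Trans (std (2 * k)) U' ∧ B.G (2 * k) * Y T U' = 0 := by
  classical
  have hrel : B.Rel (2 * k) (alt a U) :=
    Bra.rel_sum (SS U) (a := fun σ x => sg σ * a (σ * x * σ⁻¹))
      (fun σ _ => rel_smul (sg σ) (Bra.rel_conj h σ))
  obtain ⟨ρ, hρ⟩ := exists_conj hx
  have hxU := cross_iff hx hU (fun i hi => alt_cross hx hne hi)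
  -- the value on the matchings
  have key : ∀ π : Perm (Fin (2 * k)), alt a U (π⁻¹ * std (2 * k) * π) ≠ 0 →
      alt a U (π⁻¹ * std (2 * k) * π) • (B.G (2 * k) * T.th (2 * k) π * Y T U) =
        alt a U x • (B.G (2 * k) * T.th (2 * k) ρ⁻¹ * Y T U) := by
    intro π hπ
    have hm : IsMatch (π⁻¹ * std (2 * k) * π) := by
      have := conj_match (std_match k) π⁻¹
      rwa [inv_inv] at this
    have hmU := cross_iff hm hU (fun i hi => alt_cross hm hπ hi)
    obtain ⟨σ, hσ, hσ'⟩ := exists_SS hm hx hmU hxU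
    have h1 : (π * σ * ρ) * std (2 * k) = std (2 * k) * (π * σ * ρ) := by
      have h2 : π * (π⁻¹ * std (2 * k) * π) * (σ * ρ) =
          π * (σ * (ρ * std (2 * k) * ρ⁻¹) * σ⁻¹) * (σ * ρ) := by
        rw [hσ', hρ]
      calc (π * σ * ρ) * std (2 * k) =
          π * (σ * (ρ * std (2 * k) * ρ⁻¹) * σ⁻¹) * (σ * ρ) := by group
        _ = π * (π⁻¹ * std (2 * k) * π) * (σ * ρ) := h2.symm
        _ = _ := by group
    have h3 := Bra.G_cent (B := B) k _ h1
    have h4 : π = (π * σ * ρ) * (ρ⁻¹ * σ⁻¹) := by group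
    have h5 : B.G (2 * k) * T.th (2 * k) π * Y T U =
        sg σ • (B.G (2 * k) * T.th (2 * k) ρ⁻¹ * Y T U) := by
      rw [h4, map_mul, map_mul (T.th _) ρ⁻¹, ← mul_assoc, h3, ← mul_assoc, mul_assoc _ _ (Y T U),
        th_Y_mem (SS_inv hσ), mul_smul_comm, sg_inv]
    rw [h5, hσ', alt_inv a hσ, smul_smul]
    congr 1
    calc sg σ * alt a U x * sg σ = (sg σ * sg σ) * alt a U x := by ring
      _ = alt a U x := by rw [sg_sq, one_mul]
  have h6 : ∑ π : Perm (Fin (2 * k)), alt a U (π⁻¹ * std (2 * k) * π) •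
      (B.G (2 * k) * T.th (2 * k) π * Y T U) = 0 := by
    have h7 := congrArg (fun z => z * Y T U) hrel
    simp only [Finset.sum_mul, zero_mul, smul_mul_assoc] at h7
    exact h7
  have h8 : ∀ π : Perm (Fin (2 * k)), alt a U (π⁻¹ * std (2 * k) * π) •
      (B.G (2 * k) * T.th (2 * k) π * Y T U) =
      (if alt a U (π⁻¹ * std (2 * k) * π) ≠ 0 then (1 : ℚ) else 0) •
        (alt a U x • (B.G (2 * k) * T.th (2 * k) ρ⁻¹ * Y T U)) := by
    intro π
    by_cases h9 : alt a U (π⁻¹ * std (2 * k) * π) = 0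
    · rw [if_neg (not_not.2 h9), h9, zero_smul, zero_smul]
    · rw [if_pos h9, one_smul, key π h9]
  rw [Finset.sum_congr rfl (fun π _ => h8 π), ← Finset.sum_smul] at h6
  have h10 : (0 : ℚ) < ∑ π : Perm (Fin (2 * k)),
      (if alt a U (π⁻¹ * std (2 * k) * π) ≠ 0 then (1 : ℚ) else 0) := by
    refine Finset.sum_pos' (fun π _ => by split_ifs <;> norm_num) ⟨ρ⁻¹, Finset.mem_univ _, ?_⟩
    rw [inv_inv, ← hρ, if_pos hne]
    norm_num
  have h11 : B.G (2 * k) * T.th (2 * k) ρ⁻¹ * Y T U = 0 := by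
    rcases smul_eq_zero.1 h6 with h12 | h12
    · exact absurd h12 h10.ne'
    · exact (smul_eq_zero.1 h12).resolve_left hne
  refine ⟨U.map (ρ⁻¹).toEmbedding, ?_, ?_⟩
  · have hmem : ∀ i, i ∈ U.map (ρ⁻¹).toEmbedding ↔ ρ i ∈ U := by
      intro i
      rw [Finset.mem_map]
      constructor
      · rintro ⟨j, hj, rfl⟩
        simpa using hj
      · intro hi
        exact ⟨ρ i, hi, by simp⟩
    intro i
    refine ⟨fun h => absurd h ((std_match k).2 i), fun _ => ?_⟩
    rw [hmem, hmem, hxU (ρ i)]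
    have : x (ρ i) = ρ (std (2 * k) i) := by
      rw [hρ]
      simp [Perm.mul_apply]
    rw [this]
  · have h12 := congrArg (fun z => z * T.th (2 * k) ρ) h11
    simp only [zero_mul] at h12
    rw [mul_assoc (B.G _), th_Y, ← mul_assoc, mul_assoc, ← map_mul, inv_mul_cancel, map_one,
      mul_one] at h12
    exact h12

/-- **A relation in low degree forces the vanishing of an exterior power.** -/
theorem alt_of_rel [Nontrivial (A 0)] {b : ℕ} (hδ : T.trE 1 = b) {k : ℕ}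
    (hk : k < 2 * (b + 3)) (h : ¬ B.NoRel (2 * k)) :
    ∃ (j : ℕ) (U' : Finset (Fin (2 * j))), Trans (std (2 * j)) U' ∧ B.G (2 * j) * Y T U' = 0 := by
  classical
  have hex : ∃ k, ¬ B.NoRel (2 * k) := ⟨k, h⟩
  obtain ⟨k0, hk0⟩ : ∃ k0, Nat.find hex = k0 := ⟨_, rfl⟩
  have h1 : ¬ B.NoRel (2 * k0) := by
    rw [← hk0]
    exact Nat.find_spec hex
  have h2 : k0 ≤ k := by
    rw [← hk0]
    exact Nat.find_min' hex h
  rcases k0 with - | j
  · exact absurd Bra.noRel_zero h1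
  · have h3 : B.NoRel (2 * j) := by
      by_contra h4
      have := Nat.find_min' hex h4
      omega
    have h5 : ∃ a : Perm (Fin (2 * j + 2)) → ℚ, B.Rel (2 * j + 2) a ∧ ∃ x, IsMatch x ∧ a x ≠ 0 := by
      by_contra h6
      refine h1 (fun a ha x hx => ?_)
      by_contra h7
      exact h6 ⟨a, ha, x, hx, h7⟩
    obtain ⟨a, ha, x, hx, hax⟩ := h5
    have heig : Comb.Eig (2 - b) a := by
      intro y hy i
      rw [Bra.eigen ⟨j, by ring⟩ h3 ha hy i, hδ]
    obtain ⟨U, y, hy, hne, hU⟩ := Comb.alt_ne_zero (b := b) (by omega) (by omega) heig hx hax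
    obtain ⟨U', hU', hU''⟩ := alt_rel (k := j + 1) ha hy hU hne
    exact ⟨j + 1, U', hU', hU''⟩

end Pool.Agent.V8H15.BT
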