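import Pool.Agent.V8H15.BT.Comb

/-!
# The zero-one law for Brauer towers
-/

set_option autoImplicit false
set_option linter.unusedSectionVars false

open Equiv Equiv.Perm

namespace Pool.Agent.V8H15.BT.Bra

open Pool.Agent.V8H87.GG

variable {A : ℕ → Type*} [∀ n, Ring (A n)] [∀ n, Algebra ℚ (A n)] {E : Type*} [Ring E]
    [Algebra ℚ E] {T : TT A E} {B : Bra T}

/-- The product of the pairings is invariant under the permutations which fix the standard
matching. -/
lemma G_cent : ∀ (k : ℕ) (t : Perm (Fin (2 * k))), t * std (2 * k) = std (2 * k) * t →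
    B.G (2 * k) * T.th (2 * k) t = B.G (2 * k)
  | 0, t, _ => by
    have : t = 1 := by
      ext i
      exact i.elim0
    rw [this, map_one, mul_one]
  | k + 1, t, ht => by
    have ht' : t * std (2 * k + 2) = std (2 * k + 2) * t := ht
    obtain ⟨u, h1, h2, h3⟩ := exists_t (B := B) (2 * k) ⟨k, by ring⟩ (t (0 : Fin (2 * k + 2)))
    obtain ⟨y, hy⟩ : ∃ y : Perm (Fin (2 * k + 2)), y = u⁻¹ * t := ⟨_, rfl⟩
    have hy0 : y 0 = 0 := by
      rw [hy, Perm.mul_apply, Perm.inv_eq_iff_eq, h1]
    have hyc : y * std (2 * k + 2) = std (2 * k + 2) * y := by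
      rw [hy, mul_assoc, ht', ← mul_assoc, ← mul_assoc]
      congr 1
      rw [inv_mul_eq_iff_eq_mul, ← mul_assoc, h2, mul_inv_cancel_right]
    have hs0 : (std (2 * k + 2)) 0 = 1 := by
      rw [std_succ, Perm.mul_apply, ex_zero, swap_apply_left]
    have hy1 : y 1 = 1 := by
      rw [← hs0, ← Perm.mul_apply, hyc, Perm.mul_apply, hy0]
    obtain ⟨z, hz⟩ := exists_ex (σ := y) hy0
    obtain ⟨w, hw⟩ : ∃ w : Perm (Fin (2 * k)), ex w = z := by
      rcases k with - | k
      · refine ⟨1, ?_⟩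
        ext i
        have := ((ex 1 : Perm (Fin 1)) i).isLt
        have := (z i).isLt
        omega
      · refine Exists.imp (fun w h => h.symm) (exists_ex (σ := z) ?_)
        exact (by
          have h4 : (ex z) (Fin.succ 0) = 1 := by rw [← hz]; exact hy1
          rw [ex_succ] at h4
          exact Fin.succ_injective _ h4)
    have hwc : w * std (2 * k) = std (2 * k) * w := by
      rw [hz, ← hw, std_succ, ← mul_assoc, ← swap01_exex, mul_assoc, mul_assoc, ← ex_mul,
        ← ex_mul, ← ex_mul, ← ex_mul] at hyc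
      exact ex_inj (ex_inj (mul_left_cancel hyc))
    have ih := G_cent k w hwc
    have ht2 : t = u * y := by rw [hy, mul_inv_cancel_left]
    show B.G (2 * k + 2) * T.th (2 * k + 2) t = B.G (2 * k + 2)
    rw [ht2, map_mul, ← mul_assoc, h3, hz, ← hw, T.th_ex, T.th_ex, G_succ, mul_assoc, ← map_mul,
      ← map_mul, ih]

lemma noRel_zero [Nontrivial (A 0)] : B.NoRel 0 := by
  intro a h x _
  have hu : ∀ y : Perm (Fin 0), y = x := fun y => by
    ext i
    exact i.elim0
  have huniv : (Finset.univ : Finset (Perm (Fin 0))) = {x} := by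
    ext y
    exact iff_of_true (Finset.mem_univ _) (Finset.mem_singleton.2 (hu y))
  have hx1 : x = 1 := (hu 1).symm
  rw [Rel, huniv, Finset.sum_singleton, hu (x⁻¹ * std 0 * x)] at h
  have h1 : B.G 0 * T.th 0 x = 1 := by
    rw [hx1, map_one, mul_one]
    rfl
  rw [h1] at h
  exact (smul_eq_zero.1 h).resolve_right one_ne_zero

/-- **A relation in low degree forces the vanishing of a symmetric power.** -/
theorem vanish_of_rel [Nontrivial (A 0)] {n : ℕ} (hδ : T.trE 1 = -(2 * n)) {k : ℕ}
    (hk : k < 3 * (n + 2)) (h : ¬ B.NoRel (2 * k)) : ∃ N, P T N = 0 := by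
  classical
  have hex : ∃ k, ¬ B.NoRel (2 * k) := ⟨k, h⟩
  obtain ⟨k0, hk0⟩ : ∃ k0, Nat.find hex = k0 := ⟨_, rfl⟩
  have h1 : ¬ B.NoRel (2 * k0) := by
    rw [← hk0]
    exact Nat.find_spec hex
  have h2 : k0 ≤ k := by
    rw [← hk0]
    exact Nat.find_min' hex h
  rcases k0 with - | j
  · exact absurd noRel_zero h1
  · have h3 : B.NoRel (2 * j) := by
      by_contra h4
      have := Nat.find_min' hex h4
      omega
    have h5 : ∃ a : Perm (Fin (2 * j + 2)) → ℚ, B.Rel (2 * j + 2) a ∧ ∃ x, IsMatch x ∧ a x ≠ 0 := by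
      by_contra h6
      refine h1 (fun a ha x hx => ?_)
      by_contra h7
      exact h6 ⟨a, ha, x, hx, h7⟩
    obtain ⟨a, ha, x, hx, hax⟩ := h5
    have heig : Comb.Eig (2 * n + 2) a := by
      intro y hy i
      rw [eigen ⟨j, by ring⟩ h3 ha hy i, hδ]
      ring
    obtain ⟨y, hy, hsum⟩ := Comb.mean_ne_zero (n := n) (by omega) heig hx hax
    have h8 := mean ha hy hsum
    have h9 : B.F (j + 1) (2 * (j + 1)) * P T (2 * (j + 1)) = 0 := by
      rw [← G_two]
      exact h8
    exact ⟨_, sym_zero (by omega) h9⟩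

/-- **The fundamental relation.** -/
theorem rel_of_vanish {n : ℕ} (hδ : T.trE 1 = -(2 * n)) (h : ∃ N, P T N = 0) :
    B.G (2 * (n + 1)) * P T (2 * (n + 1)) = 0 := by
  obtain ⟨N, hN⟩ := h
  have h1 : ∀ d : ℕ, B.F (n + 1 + d) (2 * (n + 1 + d)) * P T (2 * (n + 1 + d)) = 0 →
      B.F (n + 1) (2 * (n + 1)) * P T (2 * (n + 1)) = 0 := by
    intro d
    induction d with
    | zero => intro h; exact h
    | succ d ih =>
      intro h
      refine ih (descent (k := n + 1 + d) ?_ h)
      rw [hδ]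
      push_cast
      have : (0 : ℚ) ≤ d := by positivity
      intro h2
      linarith
  rw [G_two]
  refine h1 N ?_
  rw [P_ge hN _ (by omega), mul_zero]

end Pool.Agent.V8H15.BT.Bra
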