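import Pool.Agent.V8H15.BT.Alg4

/-!
# Linear relations between the products of pairings
-/

set_option autoImplicit false
set_option linter.unusedSectionVars false

open Equiv Equiv.Perm

namespace Pool.Agent.V8H15.BT

open Pool.Agent.V8H87.GG

/-- The standard matching `(0 1)(2 3)...`. -/
def std : ∀ m : ℕ, Perm (Fin m)
  | 0 => 1
  | 1 => 1
  | m + 2 => swap 0 1 * ex (ex (std m))

lemma std_succ (m : ℕ) : std (m + 2) = swap 0 1 * ex (ex (std m)) := rfl

/-- A perfect matching, as a fixed point free involution. -/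
def IsMatch {m : ℕ} (x : Perm (Fin m)) : Prop := x * x = 1 ∧ ∀ i, x i ≠ i

/-- Adding an arc at the two newest positions. -/
def up {m : ℕ} (x : Perm (Fin m)) : Perm (Fin (m + 2)) := swap 0 1 * ex (ex x)

lemma swap01_exex {m : ℕ} (x : Perm (Fin m)) :
    (swap 0 1 * ex (ex x) : Perm (Fin (m + 2))) = ex (ex x) * swap 0 1 := by
  have h := swap_apply_apply (ex (ex x)) 0 1
  have h1 : ex (ex x) 1 = 1 := by
    have : (1 : Fin (m + 2)) = Fin.succ 0 := rfl
    rw [this, ex_succ, ex_zero]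
  rw [ex_zero, h1] at h
  nth_rewrite 1 [h]
  rw [mul_assoc, inv_mul_cancel, mul_one]

lemma ex_inj {n : ℕ} {x y : Perm (Fin n)} (h : ex x = ex y) : x = y := by
  ext i
  have := congrArg (fun e : Perm (Fin (n + 1)) => e i.succ) h
  simp only [ex_succ] at this
  exact congrArg Fin.val (Fin.succ_injective _ this)

lemma fin_cases2 {n : ℕ} (i : Fin (n + 2)) : i = 0 ∨ i = 1 ∨ ∃ j : Fin n, i = j.succ.succ := by
  refine Fin.cases (Or.inl rfl) (fun i1 => ?_) i
  refine Fin.cases (Or.inr (Or.inl rfl)) (fun j => Or.inr (Or.inr ⟨j, rfl⟩)) i1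

lemma succ2_ne_zero {n : ℕ} (j : Fin n) : j.succ.succ ≠ (0 : Fin (n + 2)) := Fin.succ_ne_zero _

lemma succ2_ne_one {n : ℕ} (j : Fin n) : j.succ.succ ≠ (1 : Fin (n + 2)) := fun h =>
  Fin.succ_ne_zero j (Fin.succ_injective (n + 1) (a₁ := j.succ) (a₂ := (0 : Fin (n + 1))) h)

lemma one_ne_zero' {n : ℕ} : (1 : Fin (n + 2)) ≠ 0 := Fin.succ_ne_zero (0 : Fin (n + 1))

/-- A matching which contains the arc `{0, 1}`. -/
lemma exists_up {m : ℕ} {x : Perm (Fin (m + 2))} (hx : IsMatch x) (h0 : x 0 = 1) :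
    ∃ y : Perm (Fin m), IsMatch y ∧ x = up y := by
  have hxx : ∀ i, x (x i) = i := fun i => by rw [← Perm.mul_apply, hx.1, Perm.one_apply]
  have h1 : x 1 = 0 := by
    have := hxx 0
    rwa [h0] at this
  obtain ⟨y, hy⟩ := exists_ex (σ := swap 0 1 * x) (by rw [Perm.mul_apply, h0, swap_apply_right])
  have hy0 : ∀ i, ex y i = swap 0 1 (x i) := fun i => by rw [← Perm.mul_apply, ← hy]
  rcases m with - | m
  · refine ⟨1, ⟨one_mul 1, fun i => i.elim0⟩, ?_⟩
    have hy1 : y = 1 := by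
      ext i
      have := (y i).isLt
      have := i.isLt
      simp only [Perm.one_apply]
      omega
    rw [up, ex_one, ex_one, mul_one]
    rw [hy1, ex_one] at hy
    have := congrArg (fun z => swap 0 1 * z) hy
    simp only [← mul_assoc, swap_mul_self, one_mul, mul_one] at this
    exact this
  · obtain ⟨z, hz⟩ := exists_ex (σ := y) (by
      have h2 := hy0 (Fin.succ 0)
      rw [ex_succ] at h2
      have h3 : (Fin.succ 0 : Fin (m + 3)) = 1 := rfl
      rw [h3, h1, swap_apply_left] at h2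
      exact Fin.succ_injective _ h2)
    have hxz : x = up z := by
      rw [up, ← hz, ← hy, ← mul_assoc, swap_mul_self, one_mul]
    refine ⟨z, ⟨?_, fun i hi => ?_⟩, hxz⟩
    · have h2 := hx.1
      rw [hxz, up] at h2
      nth_rewrite 1 [swap01_exex] at h2
      rw [mul_assoc, ← mul_assoc (swap 0 1), swap_mul_self, one_mul, ← ex_mul, ← ex_mul,
        ← ex_one, ← ex_one] at h2
      exact ex_inj (ex_inj h2)
    · have h2 : x i.succ.succ = i.succ.succ := by
        rw [hxz, up, Perm.mul_apply, ex_succ, ex_succ, hi,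
          swap_apply_of_ne_of_ne (succ2_ne_zero i) (succ2_ne_one i)]
      exact hx.2 _ h2

lemma up_match {m : ℕ} {y : Perm (Fin m)} (hy : IsMatch y) : IsMatch (up y) := by
  refine ⟨?_, fun i => ?_⟩
  · rw [up]
    nth_rewrite 1 [swap01_exex]
    rw [mul_assoc, ← mul_assoc (swap 0 1), swap_mul_self, one_mul, ← ex_mul, ← ex_mul, hy.1,
      ex_one, ex_one]
  · rw [up, Perm.mul_apply]
    rcases fin_cases2 i with rfl | rfl | ⟨j, rfl⟩
    · rw [ex_zero, swap_apply_left]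
      exact one_ne_zero'
    · have : (1 : Fin (m + 2)) = Fin.succ 0 := rfl
      rw [this, ex_succ, ex_zero, ← this, swap_apply_right]
      exact one_ne_zero'.symm
    · rw [ex_succ, ex_succ, swap_apply_of_ne_of_ne (succ2_ne_zero _) (succ2_ne_one _)]
      intro h
      exact hy.2 j (Fin.succ_injective _ (Fin.succ_injective _ h))

lemma conj_match {m : ℕ} {x : Perm (Fin m)} (hx : IsMatch x) (ρ : Perm (Fin m)) :
    IsMatch (ρ * x * ρ⁻¹) := by
  refine ⟨?_, fun i hi => ?_⟩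
  · calc ρ * x * ρ⁻¹ * (ρ * x * ρ⁻¹) = ρ * (x * x) * ρ⁻¹ := by group
      _ = 1 := by rw [hx.1]; group
  · have h : x (ρ⁻¹ i) = ρ⁻¹ i := by
      have := congrArg (fun z => ρ⁻¹ z) hi
      simpa [Perm.mul_apply] using this
    exact hx.2 _ h

lemma exists_normal {m : ℕ} {x : Perm (Fin (m + 2))} (hx : IsMatch x) (i : Fin (m + 2)) :
    ∃ (ρ : Perm (Fin (m + 2))) (y : Perm (Fin m)), IsMatch y ∧ ρ 1 = i ∧ x = ρ * up y * ρ⁻¹ := by
  obtain ⟨ρ, h0, h1⟩ := Bra.exists_perm (i := x i) (j := i) (hx.2 i)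
  have hxx : ∀ i, x (x i) = i := fun i => by rw [← Perm.mul_apply, hx.1, Perm.one_apply]
  have hm := conj_match hx ρ⁻¹
  have h2 : (ρ⁻¹ * x * ρ⁻¹⁻¹) 0 = 1 := by
    rw [inv_inv, Perm.mul_apply, Perm.mul_apply, h0, hxx, ← h1]
    simp
  obtain ⟨y, hy, hy'⟩ := exists_up hm h2
  exact ⟨ρ, y, hy, h1, by rw [← hy']; group⟩

lemma up_conj {m : ℕ} (x ρ : Perm (Fin m)) :
    up (ρ * x * ρ⁻¹) = ex (ex ρ) * up x * (ex (ex ρ))⁻¹ := by
  rw [up, up, ex_mul, ex_mul, ex_mul, ex_mul, Bra.ex_inv, Bra.ex_inv, ← mul_assoc, ← mul_assoc,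
    swap01_exex]
  simp only [mul_assoc]

/-- All matchings are conjugate. -/
lemma exists_conj : ∀ {m : ℕ} {x : Perm (Fin m)}, IsMatch x → ∃ π : Perm (Fin m),
    x = π * std m * π⁻¹
  | 0, x, _ => ⟨1, by ext i; exact i.elim0⟩
  | 1, x, hx => absurd (Fin.ext (by omega)) (hx.2 0)
  | m + 2, x, hx => by
    obtain ⟨ρ, y, hy, -, rfl⟩ := exists_normal hx 0
    obtain ⟨π, rfl⟩ := exists_conj hy
    refine ⟨ρ * ex (ex π), ?_⟩
    rw [up_conj, std_succ, up]
    group

lemma std_match : ∀ (k : ℕ), IsMatch (std (2 * k))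
  | 0 => ⟨one_mul 1, fun i => i.elim0⟩
  | k + 1 => up_match (std_match k)

namespace Bra

variable {A : ℕ → Type*} [∀ n, Ring (A n)] [∀ n, Algebra ℚ (A n)] {E : Type*} [Ring E]
    [Algebra ℚ E]

variable {T : TT A E} (B : Bra T)

/-- the product of the operators on all positions -/
def G : ∀ m : ℕ, A m
  | 0 => 1
  | 1 => 0
  | m + 2 => B.e m * T.ι (m + 1) (T.ι m (G m))

lemma G_succ (m : ℕ) : B.G (m + 2) = B.e m * T.ι (m + 1) (T.ι m (B.G m)) := rfl

lemma G_two : ∀ (k : ℕ), B.G (2 * k) = B.F k (2 * k)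
  | 0 => (F_zero B 0).symm
  | k + 1 => by
    have h : 2 * (k + 1) = 2 * k + 2 := rfl
    rw [h, G_succ, F_succ, G_two k]

/-- a linear relation between the products of the pairings along the matchings -/
def Rel (m : ℕ) (a : Perm (Fin m) → ℚ) : Prop :=
  ∑ π : Perm (Fin m), a (π⁻¹ * std m * π) • (B.G m * T.th m π) = 0

variable {B}

lemma rel_conj {m : ℕ} {a : Perm (Fin m) → ℚ} (h : B.Rel m a) (ρ : Perm (Fin m)) :
    B.Rel m (fun x => a (ρ * x * ρ⁻¹)) := by
  have h1 := congrArg (fun x => x * T.th m ρ) h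
  simp only [Finset.sum_mul, zero_mul] at h1
  rw [Rel, ← h1]
  refine Fintype.sum_equiv (Equiv.mulRight ρ⁻¹) _ _ (fun π => ?_)
  show a (ρ * (π⁻¹ * std m * π) * ρ⁻¹) • (B.G m * T.th m π) =
    a ((π * ρ⁻¹)⁻¹ * std m * (π * ρ⁻¹)) • (B.G m * T.th m (π * ρ⁻¹)) * T.th m ρ
  have h2 : ρ * (π⁻¹ * std m * π) * ρ⁻¹ = (π * ρ⁻¹)⁻¹ * std m * (π * ρ⁻¹) := by group
  rw [smul_mul_assoc, mul_assoc (B.G m), ← map_mul, inv_mul_cancel_right, h2]

lemma rel_add {m : ℕ} {a b : Perm (Fin m) → ℚ} (h : B.Rel m a) (h' : B.Rel m b) :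
    B.Rel m (fun x => a x + b x) := by
  rw [Rel] at *
  simp only [add_smul, Finset.sum_add_distrib, h, h', add_zero]

lemma rel_sum {m : ℕ} {J : Type*} (s : Finset J) {a : J → Perm (Fin m) → ℚ}
    (h : ∀ j ∈ s, B.Rel m (a j)) : B.Rel m (fun x => ∑ j ∈ s, a j x) := by
  classical
  induction s using Finset.induction_on with
  | empty => simp [Rel]
  | insert j s hj ih =>
    simp only [Finset.sum_insert hj]
    exact rel_add (h j (Finset.mem_insert_self _ _))
      (ih (fun i hi => h i (Finset.mem_insert_of_mem hi)))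

lemma ιe_S_ιe (n : ℕ) : T.ι (n + 2) (B.e n) * S T n * T.ι (n + 2) (B.e n) =
    T.ι (n + 2) (B.e n) := by
  rw [mul_assoc, B.S_ιe, ← mul_assoc, B.ιe_e, mul_assoc, S_sq, mul_one]

lemma swap_arcs (n : ℕ) : B.e (n + 2) * T.ι (n + 3) (T.ι (n + 2) (B.e n)) *
    (S T (n + 1) * T.ι (n + 3) (S T n)) = B.e (n + 2) * T.ι (n + 3) (T.ι (n + 2) (B.e n)) := by
  have hxy := B.e_S (n + 1)
  have hyz : T.ι (n + 3) (B.e (n + 1)) * T.ι (n + 3) (T.ι (n + 2) (B.e n)) =
      T.ι (n + 3) (B.e (n + 1)) * T.ι (n + 3) (S T n) := by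
    rw [← map_mul, B.e_S, map_mul]
  have hzy : T.ι (n + 3) (T.ι (n + 2) (B.e n)) * T.ι (n + 3) (B.e (n + 1)) =
      T.ι (n + 3) (T.ι (n + 2) (B.e n)) * T.ι (n + 3) (S T n) := by
    rw [← map_mul, B.ιe_e, map_mul]
  have hzz : T.ι (n + 3) (T.ι (n + 2) (B.e n)) * T.ι (n + 3) (S T n) *
      T.ι (n + 3) (T.ι (n + 2) (B.e n)) = T.ι (n + 3) (T.ι (n + 2) (B.e n)) := by
    rw [← map_mul, ← map_mul, ιe_S_ιe]
  have hc := B.e_comm (n + 2) (B.e n)
  calc B.e (n + 2) * T.ι (n + 3) (T.ι (n + 2) (B.e n)) * (S T (n + 1) * T.ι (n + 3) (S T n))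
      = T.ι (n + 3) (T.ι (n + 2) (B.e n)) * (B.e (n + 2) * S T (n + 1)) *
        T.ι (n + 3) (S T n) := by rw [hc]; simp only [mul_assoc]
    _ = T.ι (n + 3) (T.ι (n + 2) (B.e n)) * B.e (n + 2) *
        (T.ι (n + 3) (B.e (n + 1)) * T.ι (n + 3) (S T n)) := by
        rw [← hxy]; simp only [mul_assoc]
    _ = B.e (n + 2) * (T.ι (n + 3) (T.ι (n + 2) (B.e n)) * T.ι (n + 3) (B.e (n + 1))) *
        T.ι (n + 3) (T.ι (n + 2) (B.e n)) := by
        rw [← hyz, ← hc]; simp only [mul_assoc]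
    _ = B.e (n + 2) * (T.ι (n + 3) (T.ι (n + 2) (B.e n)) * T.ι (n + 3) (S T n) *
        T.ι (n + 3) (T.ι (n + 2) (B.e n))) := by
        rw [hzy]; simp only [mul_assoc]
    _ = _ := by rw [hzz]

lemma comm_swap {n : ℕ} {f : Perm (Fin n)} {i j : Fin n} (hi : f i = i) (hj : f j = j) :
    f * swap i j = swap i j * f := by
  rw [mul_swap_eq_swap_mul, hi, hj]

lemma u_comm {n : ℕ} (z : Perm (Fin n)) : (swap 0 2 * ex (swap 0 2) : Perm (Fin (n + 4))) *
    (swap 0 1 * ex (ex (swap 0 1 * ex (ex z)))) =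
    (swap 0 1 * ex (ex (swap 0 1 * ex (ex z)))) * (swap 0 2 * ex (swap 0 2)) := by
  have h01 : (0 : Fin (n + 4)) ≠ 1 := fun h =>
    absurd (show (0 : ℕ) = 1 from congrArg Fin.val h) (by decide)
  have h02 : (0 : Fin (n + 4)) ≠ 2 := fun h =>
    absurd (show (0 : ℕ) = 2 from congrArg Fin.val h) (by decide)
  have h03 : (0 : Fin (n + 4)) ≠ 3 := fun h =>
    absurd (show (0 : ℕ) = 3 from congrArg Fin.val h) (by decide)
  have h12 : (1 : Fin (n + 4)) ≠ 2 := fun h =>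
    absurd (show (1 : ℕ) = 2 from congrArg Fin.val h) (by decide)
  have h13 : (1 : Fin (n + 4)) ≠ 3 := fun h =>
    absurd (show (1 : ℕ) = 3 from congrArg Fin.val h) (by decide)
  have h23 : (2 : Fin (n + 4)) ≠ 3 := fun h =>
    absurd (show (2 : ℕ) = 3 from congrArg Fin.val h) (by decide)
  have e13 : ex (swap (0 : Fin (n + 3)) 2) = swap 1 3 := by rw [ex_swap]; rfl
  have e23 : ex (ex (swap (0 : Fin (n + 2)) 1)) = swap 2 3 := by rw [ex_swap, ex_swap]; rfl
  have z0 : ex (ex (ex (ex z))) 0 = 0 := ex_zero _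
  have z1 : ex (ex (ex (ex z))) 1 = 1 := by
    have : (1 : Fin (n + 4)) = Fin.succ 0 := rfl
    rw [this, ex_succ, ex_zero]
  have z2 : ex (ex (ex (ex z))) 2 = 2 := by
    have : (2 : Fin (n + 4)) = Fin.succ (Fin.succ 0) := rfl
    rw [this, ex_succ, ex_succ, ex_zero]
  have z3 : ex (ex (ex (ex z))) 3 = 3 := by
    have : (3 : Fin (n + 4)) = Fin.succ (Fin.succ (Fin.succ 0)) := rfl
    rw [this, ex_succ, ex_succ, ex_succ, ex_zero]
  rw [ex_mul, ex_mul, e13, e23]
  set Z := ex (ex (ex (ex z))) with hZ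
  have c1 : Z * swap 0 2 = swap 0 2 * Z := comm_swap z0 z2
  have c2 : Z * swap 1 3 = swap 1 3 * Z := comm_swap z1 z3
  have c3 : (swap 0 2 * swap 1 3 : Perm (Fin (n + 4))) * swap 0 1 =
      swap 2 3 * (swap 0 2 * swap 1 3) := by
    rw [mul_swap_eq_swap_mul]
    have g1 : (swap 0 2 * swap 1 3 : Perm (Fin (n + 4))) 0 = 2 := by
      rw [Perm.mul_apply, swap_apply_of_ne_of_ne h01 h03, swap_apply_left]
    have g2 : (swap 0 2 * swap 1 3 : Perm (Fin (n + 4))) 1 = 3 := by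
      rw [Perm.mul_apply, swap_apply_left, swap_apply_of_ne_of_ne h03.symm h23.symm]
    rw [g1, g2]
  have c4 : (swap 0 2 * swap 1 3 : Perm (Fin (n + 4))) * swap 2 3 =
      swap 0 1 * (swap 0 2 * swap 1 3) := by
    rw [mul_swap_eq_swap_mul]
    have g1 : (swap 0 2 * swap 1 3 : Perm (Fin (n + 4))) 2 = 0 := by
      rw [Perm.mul_apply, swap_apply_of_ne_of_ne h12.symm h23, swap_apply_right]
    have g2 : (swap 0 2 * swap 1 3 : Perm (Fin (n + 4))) 3 = 1 := by
      rw [Perm.mul_apply, swap_apply_right, swap_apply_of_ne_of_ne h01.symm h12]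
    rw [g1, g2]
  have c5 : (swap 2 3 : Perm (Fin (n + 4))) * swap 0 1 = swap 0 1 * swap 2 3 :=
    comm_swap (swap_apply_of_ne_of_ne h02 h03) (swap_apply_of_ne_of_ne h12 h13)
  calc swap 0 2 * swap 1 3 * (swap 0 1 * (swap 2 3 * Z))
      = (swap 0 2 * swap 1 3 * swap 0 1) * swap 2 3 * Z := by simp only [mul_assoc]
    _ = swap 2 3 * (swap 0 2 * swap 1 3 * swap 2 3) * Z := by rw [c3]; simp only [mul_assoc]
    _ = swap 2 3 * swap 0 1 * (swap 0 2 * (swap 1 3 * Z)) := by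
        rw [c4]; simp only [mul_assoc]
    _ = swap 0 1 * swap 2 3 * (swap 0 2 * (Z * swap 1 3)) := by rw [c5, c2]
    _ = swap 0 1 * swap 2 3 * ((swap 0 2 * Z) * swap 1 3) := by simp only [mul_assoc]
    _ = _ := by rw [← c1]; simp only [mul_assoc]

/-- The stabiliser of the standard matching is transitive, and fixes the product. -/
lemma exists_t : ∀ (m : ℕ), Even m → ∀ p : Fin (m + 2), ∃ t : Perm (Fin (m + 2)), t 0 = p ∧
    t * std (m + 2) = std (m + 2) * t ∧ B.G (m + 2) * T.th (m + 2) t = B.G (m + 2) := by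
  have base : ∀ (m : ℕ) (p : Fin (m + 2)), (p = 0 ∨ p = 1) →
      ∃ t : Perm (Fin (m + 2)), t 0 = p ∧ t * std (m + 2) = std (m + 2) * t ∧
        B.G (m + 2) * T.th (m + 2) t = B.G (m + 2) := by
    rintro m p (rfl | rfl)
    · exact ⟨1, rfl, by rw [one_mul, mul_one], by rw [map_one, mul_one]⟩
    · refine ⟨swap 0 1, swap_apply_left _ _, ?_, ?_⟩
      · rw [std_succ]
        nth_rewrite 2 [swap01_exex]
        rw [← mul_assoc, swap_mul_self, one_mul, mul_assoc, swap_mul_self, mul_one]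
      · rw [G_succ, B.e_comm, mul_assoc, e_th01]
  intro m
  induction m using Nat.strong_induction_on with
  | _ m ih =>
    intro hm p
    rcases fin_cases2 p with hp | hp | ⟨q, rfl⟩
    · exact base m p (Or.inl hp)
    · exact base m p (Or.inr hp)
    · rcases m with - | - | n
      · exact q.elim0
      · exact absurd hm (by decide)
      · obtain ⟨t', h1, h2, h3⟩ := ih n (by omega) (by
          rcases hm with ⟨r, hr⟩; exact ⟨r - 1, by omega⟩) q
        refine ⟨ex (ex t') * (swap 0 2 * ex (swap 0 2)), ?_, ?_, ?_⟩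
        · rw [Perm.mul_apply, Perm.mul_apply, ex_zero, swap_apply_left]
          have : (2 : Fin (n + 4)) = Fin.succ (Fin.succ 0) := rfl
          rw [this, ex_succ, ex_succ, h1]
        · have hu := u_comm (std n)
          rw [← std_succ n] at hu
          have ht : ex (ex t') * (swap 0 1 * ex (ex (std (n + 2)))) =
              (swap 0 1 * ex (ex (std (n + 2)))) * ex (ex t') := by
            rw [← mul_assoc, ← swap01_exex, mul_assoc, ← ex_mul, ← ex_mul, h2, ex_mul, ex_mul,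
              mul_assoc]
          calc ex (ex t') * (swap 0 2 * ex (swap 0 2)) * (swap 0 1 * ex (ex (std (n + 2))))
              = ex (ex t') * ((swap 0 2 * ex (swap 0 2)) * (swap 0 1 * ex (ex (std (n + 2))))) :=
                mul_assoc _ _ _
            _ = (ex (ex t') * (swap 0 1 * ex (ex (std (n + 2))))) *
                (swap 0 2 * ex (swap 0 2)) := by rw [hu]; simp only [mul_assoc]
            _ = _ := by rw [ht]; simp only [mul_assoc]; rfl
        · have hT : T.th (n + 4) (ex (ex t') * (swap 0 2 * ex (swap 0 2))) =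
              T.ι (n + 3) (T.ι (n + 2) (T.th (n + 2) t')) *
                (S T (n + 1) * T.ι (n + 3) (S T n)) := by
            rw [map_mul, map_mul, T.th_ex, T.th_ex, T.th_ex]; rfl
          have hG : B.G (n + 4) * T.ι (n + 3) (T.ι (n + 2) (T.th (n + 2) t')) = B.G (n + 4) := by
            have : B.G (n + 4) = B.e (n + 2) * T.ι (n + 3) (T.ι (n + 2) (B.G (n + 2))) := rfl
            rw [this, mul_assoc, ← map_mul, ← map_mul, h3]
          have hG2 : B.G (n + 4) = T.ι (n + 3) (T.ι (n + 2) (T.ι (n + 1) (T.ι n (B.G n)))) *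
              (B.e (n + 2) * T.ι (n + 3) (T.ι (n + 2) (B.e n))) := by
            have : B.G (n + 4) = B.e (n + 2) * T.ι (n + 3) (T.ι (n + 2) (B.e n *
              T.ι (n + 1) (T.ι n (B.G n)))) := rfl
            rw [this, B.e_comm n, map_mul, map_mul, ← mul_assoc, B.e_comm (n + 2), mul_assoc]
          show B.G (n + 4) * T.th (n + 4) (ex (ex t') * (swap 0 2 * ex (swap 0 2))) = B.G (n + 4)
          rw [hT, ← mul_assoc, hG, hG2, mul_assoc, swap_arcs]

/-- Only the permutations which fix the newest position matter. -/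
lemma rel_ex {m : ℕ} (hm : Even m) {a : Perm (Fin (m + 2)) → ℚ} (h : B.Rel (m + 2) a) :
    ∑ σ : Perm (Fin (m + 1)), a ((ex σ)⁻¹ * std (m + 2) * ex σ) •
      (B.G (m + 2) * T.th (m + 2) (ex σ)) = 0 := by
  classical
  choose t h1 h2 h3 using exists_t (B := B) m hm
  have hbij : Function.Bijective
      (fun x : Fin (m + 2) × Perm (Fin (m + 1)) => t x.1 * ex x.2) := by
    rw [Fintype.bijective_iff_injective_and_card]
    refine ⟨?_, ?_⟩
    · rintro ⟨p, σ⟩ ⟨p', σ'⟩ hh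
      simp only at hh
      have e1 := congrArg (fun z : Perm (Fin (m + 2)) => z 0) hh
      simp only [Perm.mul_apply, ex_zero, h1] at e1
      subst e1
      have e2 := ex_inj (mul_left_cancel hh)
      rw [e2]
    · simp [Fintype.card_perm, Nat.factorial_succ]
  have h4 : ∑ x : Fin (m + 2) × Perm (Fin (m + 1)),
      a ((t x.1 * ex x.2)⁻¹ * std (m + 2) * (t x.1 * ex x.2)) •
        (B.G (m + 2) * T.th (m + 2) (t x.1 * ex x.2)) = 0 := by
    rw [← h]
    exact Fintype.sum_bijective _ hbij _ _ (fun x => rfl)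
  have h5 : ∀ x : Fin (m + 2) × Perm (Fin (m + 1)),
      a ((t x.1 * ex x.2)⁻¹ * std (m + 2) * (t x.1 * ex x.2)) •
        (B.G (m + 2) * T.th (m + 2) (t x.1 * ex x.2)) =
      a ((ex x.2)⁻¹ * std (m + 2) * ex x.2) • (B.G (m + 2) * T.th (m + 2) (ex x.2)) := by
    intro x
    rw [map_mul, ← mul_assoc (B.G _), h3]
    have h6 : (t x.1 * ex x.2)⁻¹ * std (m + 2) * (t x.1 * ex x.2) =
        (ex x.2)⁻¹ * std (m + 2) * ex x.2 := by
      calc (t x.1 * ex x.2)⁻¹ * std (m + 2) * (t x.1 * ex x.2) =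
          (ex x.2)⁻¹ * ((t x.1)⁻¹ * (std (m + 2) * t x.1)) * ex x.2 := by group
        _ = _ := by rw [← h2]; group
    rw [h6]
  simp only [h5] at h4
  rw [Fintype.sum_prod_type] at h4
  simp only [Finset.sum_const, Finset.card_univ, Fintype.card_fin] at h4
  rw [← Nat.cast_smul_eq_nsmul ℚ] at h4
  rcases smul_eq_zero.1 h4 with h6 | h6
  · exact absurd h6 (by positivity)
  · exact h6

lemma rel_pt {m : ℕ} (hm : Even m) {a : Perm (Fin (m + 2)) → ℚ} (h : B.Rel (m + 2) a) :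
    ∑ σ : Perm (Fin (m + 1)), a ((ex σ)⁻¹ * std (m + 2) * ex σ) •
      (T.ι m (B.G m) * T.th (m + 1) σ) = 0 := by
  have h1 := congrArg (T.pt (m + 1)) (rel_ex hm h)
  rw [map_sum, map_zero] at h1
  rw [← h1]
  refine Finset.sum_congr rfl (fun σ _ => ?_)
  rw [map_smul, T.th_ex, T.pt_right, G_succ, T.pt_right, B.pt_e, one_mul]

/-- the induced relation -/
def dn (δ : ℚ) {m : ℕ} (a : Perm (Fin (m + 2)) → ℚ) (x : Perm (Fin m)) : ℚ :=
  δ * a (up x) + ∑ q : Fin m, a (swap 1 q.succ.succ * up x * swap 1 q.succ.succ)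

lemma coef_eq {m : ℕ} (ρ : Perm (Fin m)) (q : Fin (m + 1)) :
    (ex (ex ρ * swap 0 q))⁻¹ * std (m + 2) * ex (ex ρ * swap 0 q) =
      swap 1 q.succ * up (ρ⁻¹ * std m * ρ) * swap 1 q.succ := by
  have h1 : ex (ex ρ * swap 0 q) = ex (ex ρ) * swap 1 q.succ := by
    rw [ex_mul, ex_swap]; rfl
  have h2 := up_conj (std m) ρ⁻¹
  rw [inv_inv] at h2
  rw [h1, h2, mul_inv_rev, swap_inv, std_succ, up, ← ex_inv, ← ex_inv]
  group

lemma rel_dn {m : ℕ} (hm : Even m) {a : Perm (Fin (m + 2)) → ℚ} (h : B.Rel (m + 2) a) :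
    B.Rel m (dn (T.trE 1) a) := by
  have h1 := congrArg (T.pt m) (rel_pt hm h)
  rw [← Fintype.sum_bijective _ (exsw_bij m) _ _ (fun x => rfl), Fintype.sum_prod_type, map_zero,
    map_sum, Fin.sum_univ_succ] at h1
  have hone : T.pt m (1 : A (m + 1)) = T.trE 1 • (1 : A m) := by
    have hj := T.pt_j m 1
    rwa [map_one] at hj
  have e0 : T.pt m (∑ ρ : Perm (Fin m), a ((ex (ex ρ * swap 0 0))⁻¹ * std (m + 2) *
      ex (ex ρ * swap 0 0)) • (T.ι m (B.G m) * T.th (m + 1) (ex ρ * swap 0 0))) =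
      ∑ ρ : Perm (Fin m), (T.trE 1 * a (up (ρ⁻¹ * std m * ρ))) • (B.G m * T.th m ρ) := by
    rw [map_sum]
    refine Finset.sum_congr rfl (fun ρ _ => ?_)
    have h2 : (swap 1 (Fin.succ 0) : Perm (Fin (m + 2))) = 1 := swap_self _
    rw [map_smul, coef_eq, h2, one_mul, mul_one, swap_self, ← Perm.one_def, mul_one, T.th_ex,
      ← map_mul]
    have h3 : T.pt m (T.ι m (B.G m * T.th m ρ)) = T.trE 1 • (B.G m * T.th m ρ) := by
      have h4 := T.pt_left m (B.G m * T.th m ρ) 1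
      rw [mul_one, hone, mul_smul_comm, mul_one] at h4
      exact h4
    rw [h3, smul_smul, mul_comm]
  have e1 : ∀ q : Fin m, T.pt m (∑ ρ : Perm (Fin m), a ((ex (ex ρ * swap 0 q.succ))⁻¹ *
      std (m + 2) * ex (ex ρ * swap 0 q.succ)) •
        (T.ι m (B.G m) * T.th (m + 1) (ex ρ * swap 0 q.succ))) =
      ∑ ρ : Perm (Fin m), a (swap 1 q.succ.succ * up (ρ⁻¹ * std m * ρ) * swap 1 q.succ.succ) •
        (B.G m * T.th m ρ) := by
    intro q
    rw [map_sum]
    refine Finset.sum_congr rfl (fun ρ _ => ?_)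
    rw [map_smul, coef_eq, map_mul (T.th _), T.th_ex, ← mul_assoc, ← map_mul, T.pt_left,
      T.pt_swap, mul_one]
  simp only at h1
  rw [e0] at h1
  simp only [map_sum] at h1 e1
  simp only [e1] at h1
  rw [Rel, ← h1, Finset.sum_comm, ← Finset.sum_add_distrib]
  refine Finset.sum_congr rfl (fun ρ _ => ?_)
  rw [dn, add_smul, Finset.sum_smul]

/-- there is no relation -/
def NoRel (B : Bra T) (m : ℕ) : Prop :=
  ∀ a : Perm (Fin m) → ℚ, B.Rel m a → ∀ x, IsMatch x → a x = 0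

/-- **The eigenvalue equation of a relation of minimal degree.** -/
theorem eigen {m : ℕ} (hm : Even m) (hno : B.NoRel m) {a : Perm (Fin (m + 2)) → ℚ}
    (h : B.Rel (m + 2) a) {x : Perm (Fin (m + 2))} (hx : IsMatch x) (i : Fin (m + 2)) :
    ∑ l : Fin (m + 2), a (swap i l * x * swap i l) = (2 - T.trE 1) * a x := by
  obtain ⟨ρ, y, hy, h1, rfl⟩ := exists_normal hx i
  have h2 := hno _ (rel_dn hm (rel_conj h ρ)) y hy
  rw [dn] at h2
  have h3 : ∀ l : Fin (m + 2), a (ρ * (swap 1 l * up y * swap 1 l) * ρ⁻¹) =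
      a (swap i (ρ l) * (ρ * up y * ρ⁻¹) * swap i (ρ l)) := by
    intro l
    have h4 := swap_apply_apply ρ 1 l
    rw [h1] at h4
    rw [h4]
    congr 1
    group
  rw [← Equiv.sum_comp ρ, ← Finset.sum_congr rfl (fun l _ => h3 l), Fin.sum_univ_succ,
    Fin.sum_univ_succ]
  have h5 : (swap 1 (Fin.succ 0) : Perm (Fin (m + 2))) = 1 := swap_self _
  have h6 : (swap 1 0 * up y * swap 1 0 : Perm (Fin (m + 2))) = up y := by
    rw [swap_comm 1 0, up, ← mul_assoc, swap_mul_self, one_mul, ← swap01_exex]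
  rw [h5, h6, one_mul, mul_one]
  linarith

/-- The mean of a relation. -/
theorem mean {m : ℕ} {a : Perm (Fin m) → ℚ} (h : B.Rel m a) {x : Perm (Fin m)} (hx : IsMatch x)
    (h0 : ∑ σ : Perm (Fin m), a (σ * x * σ⁻¹) ≠ 0) : B.G m * P T m = 0 := by
  obtain ⟨π, rfl⟩ := exists_conj hx
  have h1 := rel_sum (B := B) Finset.univ (a := fun (σ : Perm (Fin m)) x => a (σ * x * σ⁻¹))
    (fun σ _ => rel_conj h σ)
  have h2 : ∀ τ : Perm (Fin m), ∑ σ : Perm (Fin m), a (σ * (τ⁻¹ * std m * τ) * σ⁻¹) =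
      ∑ σ : Perm (Fin m), a (σ * (π * std m * π⁻¹) * σ⁻¹) := by
    intro τ
    refine Fintype.sum_equiv (Equiv.mulRight (τ⁻¹ * π⁻¹)) _ _ (fun σ => ?_)
    show a (σ * (τ⁻¹ * std m * τ) * σ⁻¹) =
      a ((σ * (τ⁻¹ * π⁻¹)) * (π * std m * π⁻¹) * (σ * (τ⁻¹ * π⁻¹))⁻¹)
    congr 1
    group
  rw [Rel] at h1
  simp only [h2] at h1
  rw [← Finset.smul_sum, ← Finset.mul_sum] at h1
  rcases smul_eq_zero.1 h1 with h3 | h3
  · exact absurd h3 h0
  · exact h3

lemma rel_one {m : ℕ} (h : B.G m * P T m = 0) : B.Rel m (fun _ => 1) := by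
  rw [Rel]
  simp only [one_smul]
  rw [← Finset.mul_sum]
  exact h

end Bra

end Pool.Agent.V8H15.BT
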